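import Pool.Agent.Lib.MP_7946c7_pr.Defs

/-!
# Hypotheses on the conductances (stream I)
-/

open Finset

namespace RST

/-- Hypotheses on the conductances: resistances inside components and of the `GA` edges. -/
structure CFacts {V : Type} [Fintype V] (Gm GA : V → V → Prop) (c : Sym2 V → ℝ) (R₀ RA : ℝ) :
    Prop where
  pos : ∀ e, 0 < c e
  inside : ∀ u v, v ∈ cmp Gm univ u → ∃ (γ : ℕ → V) (ℓ : ℕ), γ 0 = u ∧ γ ℓ = v ∧ IsSAW Gm γ ℓ ∧
    ∑ i ∈ range ℓ, 1 / c s(γ i, γ (i + 1)) ≤ R₀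
  edge : ∀ u v, GA u v → 1 / c s(u, v) ≤ RA

end RST
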