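import Pool.Agent.Lib.MP_7946c7_pr.G.ExpB

/-!
# Elementary operations on self-avoiding walks (stream I)
-/

open Finset

set_option linter.unusedSectionVars false

namespace RST.I

variable {V : Type}

theorem saw_sub {R : V → V → Prop} {γ : ℕ → V} {ℓ : ℕ} (h : IsSAW R γ ℓ) (s q : ℕ)
    (hs : s + q ≤ ℓ) : IsSAW R (fun i => γ (s + i)) q := by
  refine ⟨fun i hi => ?_, fun i hi j hj hij => ?_⟩
  · have := h.1 (s + i) (by omega)
    simpa [Nat.add_assoc] using this
  · have := h.2 (s + i) (by omega) (s + j) (by omega) hij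
    omega

theorem saw_rev {R : V → V → Prop} (hR : ∀ u v, R u v → R v u) {γ : ℕ → V} {ℓ : ℕ}
    (h : IsSAW R γ ℓ) (s q : ℕ) (hs : s ≤ ℓ) (hq : q ≤ s) : IsSAW R (fun i => γ (s - i)) q := by
  refine ⟨fun i hi => ?_, fun i hi j hj hij => ?_⟩
  · have := h.1 (s - (i + 1)) (by omega)
    have e : s - (i + 1) + 1 = s - i := by omega
    rw [e] at this
    exact hR _ _ this
  · have := h.2 (s - i) (by omega) (s - j) (by omega) hij
    omega

/-- Concatenation of walks. -/
def cat (A : ℕ → V) (p : ℕ) (B : ℕ → V) (i : ℕ) : V := if i ≤ p then A i else B (i - p)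

theorem cat_le (A : ℕ → V) (p : ℕ) (B : ℕ → V) (i : ℕ) (h : i ≤ p) : cat A p B i = A i := by
  simp [cat, h]

theorem cat_ge (A : ℕ → V) (p : ℕ) (B : ℕ → V) (h0 : A p = B 0) (i : ℕ) (h : p ≤ i) :
    cat A p B i = B (i - p) := by
  rcases Nat.lt_or_ge p i with h1 | h1
  · have : ¬ i ≤ p := by omega
    simp [cat, this]
  · have : i = p := by omega
    subst this
    simp [cat, h0]

theorem saw_cat {R : V → V → Prop} {A B : ℕ → V} {p q : ℕ} (hA : IsSAW R A p) (hB : IsSAW R B q)
    (h0 : A p = B 0) (hd : ∀ i < p, ∀ j ≤ q, A i ≠ B j) : IsSAW R (cat A p B) (p + q) := by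
  refine ⟨fun i hi => ?_, fun i hi j hj hij => ?_⟩
  · rcases Nat.lt_or_ge i p with h1 | h1
    · rw [cat_le A p B i (by omega), cat_le A p B (i + 1) (by omega)]
      exact hA.1 i h1
    · rw [cat_ge A p B h0 i h1, cat_ge A p B h0 (i + 1) (by omega)]
      have := hB.1 (i - p) (by omega)
      have e : i + 1 - p = i - p + 1 := by omega
      rw [e]
      exact this
  · rcases Nat.lt_or_ge i p with h1 | h1
    · rw [cat_le A p B i (by omega)] at hij
      rcases Nat.lt_or_ge j p with h2 | h2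
      · rw [cat_le A p B j (by omega)] at hij
        exact hA.2 i (by omega) j (by omega) hij
      · rw [cat_ge A p B h0 j h2] at hij
        exact absurd hij (hd i h1 (j - p) (by omega))
    · rw [cat_ge A p B h0 i h1] at hij
      rcases Nat.lt_or_ge j p with h2 | h2
      · rw [cat_le A p B j (by omega)] at hij
        exact absurd hij.symm (hd j h2 (i - p) (by omega))
      · rw [cat_ge A p B h0 j h2] at hij
        have := hB.2 (i - p) (by omega) (j - p) (by omega) hij
        omega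

section cmp

variable [Fintype V]

theorem mem_cmp {R : V → V → Prop} {v w : V} : w ∈ cmp R univ v ↔ Rch R univ v w := by
  simp [cmp]

theorem rch_refl (R : V → V → Prop) (W : Finset V) (v : V) : Rch R W v v :=
  Relation.ReflTransGen.refl

theorem rch_trans {R : V → V → Prop} {W : Finset V} {u v w : V} (h1 : Rch R W u v)
    (h2 : Rch R W v w) : Rch R W u w :=
  Relation.ReflTransGen.trans h1 h2

theorem rch_symm {R : V → V → Prop} (hR : ∀ u v, R u v → R v u) {W : Finset V} {u v : V}
    (h : Rch R W u v) : Rch R W v u := by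
  induction h with
  | refl => exact Relation.ReflTransGen.refl
  | tail _ hbc ih =>
    exact Relation.ReflTransGen.head ⟨hR _ _ hbc.1, hbc.2.2, hbc.2.1⟩ ih

theorem rch_edge {R : V → V → Prop} {u v : V} (h : R u v) : Rch R univ u v :=
  Relation.ReflTransGen.single ⟨h, mem_univ _, mem_univ _⟩

theorem rch_walk {R : V → V → Prop} (γ : ℕ → V) (i j : ℕ) (hij : i ≤ j)
    (h : ∀ t, i ≤ t → t < j → R (γ t) (γ (t + 1))) : Rch R univ (γ i) (γ j) := by
  induction j, hij using Nat.le_induction with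
  | base => exact rch_refl _ _ _
  | succ j hij ih =>
    exact rch_trans (ih fun t h1 h2 => h t h1 (by omega)) (rch_edge (h j hij (by omega)))

theorem self_mem_cmp (R : V → V → Prop) (v : V) : v ∈ cmp R univ v := mem_cmp.2 (rch_refl _ _ _)

theorem cmp_eq {R : V → V → Prop} (hR : ∀ u v, R u v → R v u) {u v : V}
    (h : v ∈ cmp R univ u) : cmp R univ v = cmp R univ u := by
  ext w
  rw [mem_cmp, mem_cmp]
  have h1 := mem_cmp.1 h
  exact ⟨fun h2 => rch_trans h1 h2, fun h2 => rch_trans (rch_symm hR h1) h2⟩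

theorem mem_cmp_symm {R : V → V → Prop} (hR : ∀ u v, R u v → R v u) {u v : V}
    (h : v ∈ cmp R univ u) : u ∈ cmp R univ v :=
  mem_cmp.2 (rch_symm hR (mem_cmp.1 h))

theorem cmp_eq_iff {R : V → V → Prop} (hR : ∀ u v, R u v → R v u) {u v : V} :
    cmp R univ u = cmp R univ v ↔ v ∈ cmp R univ u :=
  ⟨fun h => h ▸ self_mem_cmp R v, fun h => (cmp_eq hR h).symm⟩

/-- All the vertices of a `Gm`-walk are in the component of its first vertex. -/
theorem saw_mem_cmp {R : V → V → Prop} {γ : ℕ → V} {ℓ : ℕ} (h : IsSAW R γ ℓ) (i : ℕ)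
    (hi : i ≤ ℓ) : γ i ∈ cmp R univ (γ 0) :=
  mem_cmp.2 (rch_walk γ 0 i (Nat.zero_le _) fun t _ ht => h.1 t (by omega))

/-- Elements of `bigs` are components of their elements. -/
theorem bigs_eq {R : V → V → Prop} (hR : ∀ u v, R u v → R v u) {k : ℕ} {Q : Finset V}
    (hQ : Q ∈ bigs R univ k) {v : V} (hv : v ∈ Q) : cmp R univ v = Q := by
  classical
  rw [bigs, mem_filter, mem_image] at hQ
  obtain ⟨⟨u, _, rfl⟩, _⟩ := hQ
  exact cmp_eq hR hv

theorem bigs_card {R : V → V → Prop} {k : ℕ} {Q : Finset V} (hQ : Q ∈ bigs R univ k) :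
    k ≤ Q.card := by
  classical
  rw [bigs, mem_filter] at hQ
  exact hQ.2

theorem mem_bigs {R : V → V → Prop} {k : ℕ} {v : V} (h : k ≤ (cmp R univ v).card) :
    cmp R univ v ∈ bigs R univ k := by
  classical
  rw [bigs, mem_filter, mem_image]
  exact ⟨⟨v, mem_univ _, rfl⟩, h⟩

open Classical in
theorem disjArms_pair {R : V → V → Prop} {W : Finset V} {a b : V} (hab : a ≠ b) {r : ℕ}
    {α β : ℕ → V} (hα0 : α 0 = a) (hα : IsSAW R α r) (hαW : ∀ i ≤ r, α i ∈ W)
    (hβ0 : β 0 = b) (hβ : IsSAW R β r) (hβW : ∀ i ≤ r, β i ∈ W)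
    (hd : ∀ i ≤ r, ∀ j ≤ r, α i ≠ β j) : DisjArms R W {a, b} r := by
  refine ⟨fun w => if w = a then α else β, ?_, ?_⟩
  · intro w hw
    rw [mem_insert, mem_singleton] at hw
    rcases hw with rfl | rfl
    · simp only [if_true]
      exact ⟨hα0, hα, hαW⟩
    · simp only [if_neg (Ne.symm hab)]
      exact ⟨hβ0, hβ, hβW⟩
  · intro w hw w' hw' hne i hi j hj
    rw [mem_insert, mem_singleton] at hw hw'
    rcases hw with rfl | rfl
    · rcases hw' with rfl | rfl
      · exact absurd rfl hne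
      · simp only [if_true, if_neg (Ne.symm hab)]
        exact hd i hi j hj
    · rcases hw' with rfl | rfl
      · simp only [if_true, if_neg (Ne.symm hab)]
        exact fun h => hd j hj i hi h.symm
      · exact absurd rfl hne

end cmp

end RST.I
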