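import Pool.Agent.Lib.MP_7946c7_pr.D.F8
import Pool.Agent.Lib.MP_7946c7_pr.I.Walk

/-!
# Length of a walk in terms of its big edges, (U4)
-/

open Finset

namespace RST.I

/-- If every interval of `[a, b)` without bad positions has length less than `L`, then
`b ≤ a + L (#bad + 1)`. -/
theorem gap_count (bad : ℕ → Prop) [DecidablePred bad] (L b : ℕ) : ∀ (n a : ℕ),
    ((Ico a b).filter bad).card ≤ n →
    (∀ i j, a ≤ i → i ≤ j → j ≤ b → (∀ t, i ≤ t → t < j → ¬ bad t) → j < i + L) →
    b ≤ a + L * (n + 1) := by
  intro n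
  induction n with
  | zero =>
    intro a hc hL
    rcases Nat.lt_or_ge b a with h | h
    · omega
    · have := hL a b le_rfl h le_rfl fun t h1 h2 hb => by
        have : t ∈ (Ico a b).filter bad := by simp [h1, h2, hb]
        have := card_pos.2 ⟨t, this⟩
        omega
      simp
      omega
  | succ n ih =>
    intro a hc hL
    by_cases h : ∃ t, a ≤ t ∧ t < b ∧ bad t
    · classical
      obtain ⟨h1, h2, h3⟩ := Nat.find_spec h
      have hmin : ∀ u, u < Nat.find h → ¬ (a ≤ u ∧ u < b ∧ bad u) := fun u hu => Nat.find_min h hu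
      set t := Nat.find h
      have ht : t < a + L := hL a t le_rfl h1 (by omega) fun u hu1 hu2 hb =>
        hmin u hu2 ⟨hu1, by omega, hb⟩
      have hcard : ((Ico (t + 1) b).filter bad).card ≤ n := by
        have hlt : ((Ico (t + 1) b).filter bad).card < ((Ico a b).filter bad).card := by
          refine card_lt_card ⟨fun u hu => ?_, fun hsub => ?_⟩
          · simp only [mem_filter, mem_Ico] at hu ⊢
            exact ⟨⟨by omega, hu.1.2⟩, hu.2⟩
          · have := hsub (show t ∈ (Ico a b).filter bad by simp [h1, h2, h3])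
            simp at this
        omega
      have := ih (t + 1) hcard fun i j hi hij hj hb => hL i j (by omega) hij hj hb
      have e : L * (n + 1 + 1) = L * (n + 1) + L := by ring
      omega
    · have hab : ∀ i, a ≤ i → i ≤ b → b < i + L := fun i hi hib =>
        hL i b hi hib le_rfl fun t h1 h2 hb => h ⟨t, by omega, h2, hb⟩
      rcases Nat.lt_or_ge b a with h' | h'
      · omega
      · have := hab a le_rfl h'
        have e : L * (n + 1 + 1) = L * (n + 1) + L := by ring
        omega

variable {V : Type} [Fintype V]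

open Classical in
/-- UPPER, (U4): length of a walk of `GW` in terms of its edges in `Ebig`. -/
theorem len_bound (Gm GA GW : V → V → Prop) (km lmax r' r'' k₀ lm ab eb : ℕ)
    (F : DFacts Gm GA GW km lmax r' r'' k₀ lm ab eb) (γ : ℕ → V) (ℓ : ℕ) (hγ : IsSAW GW γ ℓ) :
    ℓ ≤ 2 * (r'' + 1) + lmax *
      (((range ℓ).filter fun i => s(γ i, γ (i + 1)) ∈ Ebig Gm GW r'').card + 1) := by
  have key := gap_count (fun t => ¬ Gm (γ t) (γ (t + 1))) lmax (ℓ - r'')
    (((range ℓ).filter fun i => s(γ i, γ (i + 1)) ∈ Ebig Gm GW r'').card) r'' ?_ ?_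
  · omega
  · apply card_le_card
    intro t ht
    simp only [mem_filter, mem_Ico, mem_range] at ht ⊢
    obtain ⟨⟨h1, h2⟩, h3⟩ := ht
    refine ⟨by omega, ?_⟩
    rw [Ebig, mem_filter]
    refine ⟨mem_univ _, γ t, γ (t + 1), rfl, ?_, hγ.1 t (by omega), h3, ?_⟩
    · intro h
      have := hγ.2 t (by omega) (t + 1) (by omega) h
      omega
    · have hne : γ t ≠ γ (t + 1) := by
        intro h
        have := hγ.2 t (by omega) (t + 1) (by omega) h
        omega
      refine disjArms_pair (α := fun i => γ (t - i)) (β := fun i => γ (t + 1 + i)) hne rfl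
        (saw_rev F.symm_L hγ t r'' (by omega) h1) (fun _ _ => mem_univ _) rfl
        (saw_sub hγ (t + 1) r'' (by omega)) (fun _ _ => mem_univ _) ?_
      intro i hi j hj h
      have := hγ.2 (t - i) (by omega) (t + 1 + j) (by omega) h
      omega
  · intro i j hi hij hj hb
    have hs : IsSAW Gm (fun k => γ (i + k)) (j - i) := by
      refine ⟨fun k hk => ?_, fun k hk k' hk' h => ?_⟩
      · have := hb (i + k) (by omega) (by omega)
        rw [not_not] at this
        exact this
      · have := hγ.2 (i + k) (by omega) (i + k') (by omega) h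
        omega
    have := F.d1 _ _ hs
    omega

end RST.I
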