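import Pool.Agent.Lib.MP_7946c7_pr.I.Diri
import Pool.Agent.Lib.MP_7946c7_pr.I.Len

/-!
# Stream I: deterministic part of regime 2 (notes, sections I, UPPER, LOWER and Lemma Z)
-/

open Finset

set_option linter.unusedSectionVars false

namespace RST

variable {V : Type} [Fintype V] [DecidableEq V]

open Classical in
/-- LEMMA Z. A piece of a self-avoiding walk of `GW` with both ends in the same component of `Gm`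
and between `1` and `lm + 1` window edges contains an edge of `Ecyc`. -/
theorem lemmaZ (Gm GW : V → V → Prop) (hm : ∀ u v, Gm u v → Gm v u)
    (hL : ∀ u v, GW u v → GW v u) (hmL : ∀ u v, Gm u v → GW u v) (lm : ℕ) (γ : ℕ → V) (ℓ : ℕ)
    (hγ : IsSAW GW γ ℓ) (i j : ℕ) (hij : i < j) (hj : j ≤ ℓ) (hc : γ j ∈ cmp Gm univ (γ i))
    (h1 : ∃ t, i ≤ t ∧ t < j ∧ ¬ Gm (γ t) (γ (t + 1)))
    (hcard : ((Ico i j).filter fun t => ¬ Gm (γ t) (γ (t + 1))).card ≤ lm + 1) :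
    ∃ t, i ≤ t ∧ t < j ∧ ¬ Gm (γ t) (γ (t + 1)) ∧ s(γ t, γ (t + 1)) ∈ Ecyc Gm GW lm := by
  classical
  exact I.lemmaZ Gm GW hm hL hmL lm γ ℓ hγ i j hij hj hc h1 hcard

/-- 6. Poincaré inequality on the macroscopic components. -/
theorem poincareS (Gm GA GW : V → V → Prop) (km lmax r' r'' k₀ lm ab eb : ℕ)
    (F : DFacts Gm GA GW km lmax r' r'' k₀ lm ab eb) (c : Sym2 V → ℝ) (R₀ RA : ℝ)
    (hC : CFacts Gm GA c R₀ RA) (hR₀ : 0 ≤ R₀) (hRA : 0 ≤ RA) (rep : Finset V → V)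
    (hrep : ∀ Q ∈ bigs Gm univ km, rep Q ∈ Q) (f : V → ℝ) :
    ∑ Q ∈ bigs Gm univ km, (f (rep Q) -
      (∑ Q' ∈ bigs Gm univ km, f (rep Q')) / (bigs Gm univ km).card) ^ 2 ≤
      8 * ab * (ab + 1) * (2 * R₀ + RA) * Dir c f := by
  exact I.poincareS Gm GA GW km lmax r' r'' k₀ lm ab eb F c R₀ RA hC hR₀ hRA rep hrep f

/-- I. Dirichlet eigenvalue of a long walk. -/
theorem dirichletS (Gm GA GW : V → V → Prop) (km lmax r' r'' k₀ lm ab eb : ℕ)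
    (F : DFacts Gm GA GW km lmax r' r'' k₀ lm ab eb) (hr : r'' = r' / 2) (hr' : 2 ≤ r')
    (hlm : 2 * k₀ + 4 ≤ lm) (c : Sym2 V → ℝ) (R₀ RA : ℝ)
    (hC : CFacts Gm GA c R₀ RA) (hR₀ : 0 ≤ R₀) (hRA : 0 ≤ RA) (rep : Finset V → V)
    (hrep : ∀ Q ∈ bigs Gm univ km, rep Q ∈ Q) (γ : ℕ → V) (M₀ l₁ : ℕ) (hγ : IsSAW GW γ M₀)
    (hl₁ : 2 * lmax ≤ l₁) (hl₂ : 4 * r' ≤ l₁)
    (hgood : ∀ i, i + l₁ ≤ M₀ → ∃ t, i ≤ t ∧ t ≤ i + l₁ ∧ AGood Gm GA km (γ t)) (mg : ℝ)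
    (hmg : 0 < mg) (hmg2 : mg * (ab + eb + 1) * ((2 * k₀ + 4) * (ab + eb + 2)) ≤ (M₀ / (2 * l₁) : ℕ))
    (f : V → ℝ) (hf : ∀ i ≤ M₀, f (γ i) = 0) :
    ∑ Q ∈ bigs Gm univ km, f (rep Q) ^ 2 ≤
      50 * (ab + 1) ^ 2 * (2 * R₀ + RA) * ((bigs Gm univ km).card / mg + 1) * Dir c f := by
  exact I.dirichletS Gm GA GW km lmax r' r'' k₀ lm ab eb F hr hr' hlm c R₀ RA hC hR₀ hRA rep
    hrep γ M₀ l₁ hγ hl₁ hl₂ hgood mg hmg hmg2 f hf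

open Classical in
/-- UPPER, (U4): length of a walk of `GW` in terms of its edges in `Ebig`. -/
theorem len_bound (Gm GA GW : V → V → Prop) (km lmax r' r'' k₀ lm ab eb : ℕ)
    (F : DFacts Gm GA GW km lmax r' r'' k₀ lm ab eb) (γ : ℕ → V) (ℓ : ℕ) (hγ : IsSAW GW γ ℓ) :
    ℓ ≤ 2 * (r'' + 1) + lmax *
      (((range ℓ).filter fun i => s(γ i, γ (i + 1)) ∈ Ebig Gm GW r'').card + 1) := by
  convert I.len_bound Gm GA GW km lmax r' r'' k₀ lm ab eb F γ ℓ hγ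

/-- LOWER, (L): structure of a path between two representatives. -/
theorem lower_struct (Gm GA GW : V → V → Prop) (km lmax r' r'' k₀ lm ab eb : ℕ)
    (F : DFacts Gm GA GW km lmax r' r'' k₀ lm ab eb) (hr : r'' = r' / 2) (hr' : 2 ≤ r')
    (hlm : 2 * k₀ + 4 ≤ lm) (rep : Finset V → V) (hrep : ∀ Q ∈ bigs Gm univ km, rep Q ∈ Q)
    (γ : ℕ → V) (ℓ : ℕ) (hγ : IsSAW GW γ ℓ) (Q Q' : Finset V) (hQ : Q ∈ bigs Gm univ km)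
    (hQ' : Q' ∈ bigs Gm univ km) (hne : Q ≠ Q') (h0 : γ 0 = rep Q) (hl : γ ℓ = rep Q')
    (hE : ∀ i < ℓ, s(γ i, γ (i + 1)) ∉ Ecyc Gm GW lm) :
    ∃ (q : ℕ) (g : ℕ → ℕ), (∀ j ≤ q, g j < ℓ) ∧ q + 1 ≤ k₀ * (ℓ / r' + 1) ∧
      (γ 0, s(γ (g 0), γ (g 0 + 1))) ∈ QQb Gm GW km r'' rep ∧
      (γ ℓ, s(γ (g q), γ (g q + 1))) ∈ QQb Gm GW km r'' rep ∧
      ∀ j < q, (s(γ (g j), γ (g j + 1)), s(γ (g (j + 1)), γ (g (j + 1) + 1))) ∈ PPa Gm GW r'' := by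
  exact I.lower_struct Gm GA GW km lmax r' r'' k₀ lm ab eb F hr hr' hlm rep hrep γ ℓ hγ Q Q' hQ hQ'
    hne h0 hl hE

end RST
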