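import Pool.Agent.Lib.MP_7946c7_pr.I.Energy
import Pool.Agent.Lib.MP_7946c7_pr.IfC

/-!
# Stream I: Poincaré inequality on the macroscopic components
-/

open Finset

namespace RST.I

theorem pn_mem_sdiff {α : Type*} {inst : DecidableEq α} {s t : Finset α} {a : α} :
    a ∈ @SDiff.sdiff (Finset α) (@Finset.instSDiff α inst) s t ↔ a ∈ s ∧ a ∉ t := by
  simp

theorem bigs_exists {V : Type} [Fintype V] {R : V → V → Prop} {k : ℕ} {Q : Finset V}
    (hQ : Q ∈ bigs R univ k) : ∃ v, cmp R univ v = Q := by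
  classical
  rw [bigs, mem_filter, mem_image] at hQ
  obtain ⟨⟨u, _, h⟩, _⟩ := hQ
  exact ⟨u, h⟩

/-- Two different members of `bigs` are disjoint. -/
theorem bigs_disjoint {V : Type} [Fintype V] {R : V → V → Prop} (hR : ∀ u v, R u v → R v u)
    {k : ℕ} {P Q : Finset V} (hP : P ∈ bigs R univ k) (hQ : Q ∈ bigs R univ k) (hne : P ≠ Q) :
    Disjoint P Q := by
  rw [Finset.disjoint_left]
  intro x hx hx'
  exact hne ((bigs_eq hR hP hx).symm.trans (bigs_eq hR hQ hx'))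

/-- An arm of `Gm` stays in the component of its first vertex. -/
private lemma pn_arm {V : Type} [Fintype V] {Gm GW : V → V → Prop}
    (hle : ∀ u v, Gm u v → GW u v) {w : V} {r : ℕ} (h : Arm Gm univ w r) :
    ∃ γ : ℕ → V, γ 0 = w ∧ IsSAW GW γ r ∧ ∀ i ≤ r, γ i ∈ cmp Gm univ w := by
  obtain ⟨γ, h0, hγ, -⟩ := h
  refine ⟨γ, h0, ⟨fun i hi => hle _ _ (hγ.1 i hi), hγ.2⟩, fun i hi => ?_⟩
  rw [← h0]
  exact saw_mem_cmp hγ i hi

variable {V : Type} [Fintype V] [DecidableEq V]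

/-- Degree bound in the graph of the macroscopic components. -/
theorem bigs_degree (Gm GA GW : V → V → Prop) (km lmax r' r'' k₀ lm ab eb : ℕ)
    (F : DFacts Gm GA GW km lmax r' r'' k₀ lm ab eb) (P : Finset V) (hP : P ∈ bigs Gm univ km)
    (N : Finset (Finset V)) (hN : ∀ Q ∈ N, Q ∈ bigs Gm univ km ∧ P ≠ Q ∧ cadj GA P Q) :
    N.card ≤ ab := by
  classical
  obtain ⟨v, hv⟩ := bigs_exists hP
  have hch : ∀ Q : Finset V, ∃ w : V, Q ∈ N → w ∈ Q ∧ ∃ u ∈ P, GA u w := by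
    intro Q
    by_cases hQ : Q ∈ N
    · obtain ⟨u, hu, w, hw, h⟩ := (hN Q hQ).2.2
      exact ⟨w, fun _ => ⟨hw, u, hu, h⟩⟩
    · exact ⟨v, fun h => absurd h hQ⟩
  choose w hw using hch
  have hinj : Set.InjOn w (N : Set (Finset V)) := by
    intro Q hQ Q' hQ' heq
    have h1 := (hw Q hQ).1
    have h2 := (hw Q' hQ').1
    rw [← heq] at h2
    exact (bigs_eq F.symm_m (hN Q hQ).1 h1).symm.trans (bigs_eq F.symm_m (hN Q' hQ').1 h2)
  rw [← Finset.card_image_of_injOn hinj]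
  have harm : ∀ x : V, ∃ γ : ℕ → V, x ∈ N.image w →
      γ 0 = x ∧ IsSAW GW γ r'' ∧ ∀ i ≤ r'', γ i ∈ cmp Gm univ x := by
    intro x
    by_cases hx : x ∈ N.image w
    · obtain ⟨Q, hQ, rfl⟩ := Finset.mem_image.1 hx
      have h1 := bigs_eq F.symm_m (hN Q hQ).1 (hw Q hQ).1
      have h2 : km ≤ (cmp Gm univ (w Q)).card := by
        rw [h1]; exact bigs_card (hN Q hQ).1
      obtain ⟨γ, hγ⟩ := pn_arm (fun u v h => F.le_L u v (F.le_A u v h)) (F.d10 _ h2)
      exact ⟨γ, fun _ => hγ⟩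
    · exact ⟨fun _ => v, fun h => absurd h hx⟩
  choose γ hγ using harm
  have hcmp : ∀ x ∈ N.image w, cmp Gm univ x ∈ N ∧ cmp Gm univ x ≠ P := by
    intro x hx
    obtain ⟨Q, hQ, rfl⟩ := Finset.mem_image.1 hx
    have h1 := bigs_eq F.symm_m (hN Q hQ).1 (hw Q hQ).1
    rw [h1]
    exact ⟨hQ, fun h => (hN Q hQ).2.1 h.symm⟩
  apply F.d4 v
  · intro x hx
    obtain ⟨Q, hQ, rfl⟩ := Finset.mem_image.1 hx
    have h1 := bigs_eq F.symm_m (hN Q hQ).1 (hw Q hQ).1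
    refine ⟨fun h => ?_, ?_⟩
    · have h2 := cmp_eq F.symm_m h
      rw [h1, hv] at h2
      exact (hN Q hQ).2.1 h2.symm
    · obtain ⟨u, hu, h⟩ := (hw Q hQ).2
      rw [hv]
      exact ⟨u, hu, F.le_L _ _ h⟩
  · refine ⟨γ, ?_, ?_⟩
    · intro x hx
      refine ⟨(hγ x hx).1, (hγ x hx).2.1, fun i hi => ?_⟩
      rw [pn_mem_sdiff]
      refine ⟨Finset.mem_univ _, fun h => ?_⟩
      have h1 := (hγ x hx).2.2 i hi
      have h2 := (cmp_eq F.symm_m h1).symm.trans (cmp_eq F.symm_m h)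
      rw [hv] at h2
      exact (hcmp x hx).2 h2
    · intro x hx x' hx' hne i hi j hj heq
      have h1 := (hγ x hx).2.2 i hi
      have h2 := (hγ x' hx').2.2 j hj
      rw [← heq] at h2
      have h3 := (cmp_eq F.symm_m h1).symm.trans (cmp_eq F.symm_m h2)
      obtain ⟨Q, hQ, hQx⟩ := Finset.mem_image.1 hx
      obtain ⟨Q', hQ', hQx'⟩ := Finset.mem_image.1 hx'
      have e1 := bigs_eq F.symm_m (hN Q hQ).1 (hw Q hQ).1
      have e2 := bigs_eq F.symm_m (hN Q' hQ').1 (hw Q' hQ').1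
      rw [hQx] at e1
      rw [hQx'] at e2
      have : Q = Q' := by rw [← e1, ← e2, h3]
      rw [this] at hQx
      exact hne (hQx.symm.trans hQx')

private lemma pn_sum_fst {α : Type} [DecidableEq α] (S : Finset α) (A : α → α → Prop)
    [DecidableRel A] (k : ℕ) (hk : ∀ P ∈ S, (S.filter fun Q => A P Q).card ≤ k) (g : α → ℝ)
    (hg : ∀ P, 0 ≤ g P) :
    ∑ p ∈ (S ×ˢ S).filter (fun p => A p.1 p.2), g p.1 ≤ k * ∑ P ∈ S, g P := by
  rw [Finset.sum_filter, Finset.sum_product, Finset.mul_sum]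
  refine Finset.sum_le_sum fun P hP => ?_
  dsimp only
  rw [← Finset.sum_filter, Finset.sum_const, nsmul_eq_mul]
  exact mul_le_mul_of_nonneg_right (by exact_mod_cast hk P hP) (hg P)

private lemma pn_sum_snd {α : Type} [DecidableEq α] (S : Finset α) (A : α → α → Prop)
    [DecidableRel A] (k : ℕ) (hk : ∀ Q ∈ S, (S.filter fun P => A P Q).card ≤ k) (g : α → ℝ)
    (hg : ∀ P, 0 ≤ g P) :
    ∑ p ∈ (S ×ˢ S).filter (fun p => A p.1 p.2), g p.2 ≤ k * ∑ P ∈ S, g P := by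
  rw [Finset.sum_filter, Finset.sum_product_right, Finset.mul_sum]
  refine Finset.sum_le_sum fun Q hQ => ?_
  dsimp only
  rw [← Finset.sum_filter, Finset.sum_const, nsmul_eq_mul]
  exact mul_le_mul_of_nonneg_right (by exact_mod_cast hk Q hQ) (hg Q)

/-- 6. Poincaré inequality on the macroscopic components. -/
theorem poincareS (Gm GA GW : V → V → Prop) (km lmax r' r'' k₀ lm ab eb : ℕ)
    (F : DFacts Gm GA GW km lmax r' r'' k₀ lm ab eb) (c : Sym2 V → ℝ) (R₀ RA : ℝ)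
    (hC : CFacts Gm GA c R₀ RA) (hR₀ : 0 ≤ R₀) (hRA : 0 ≤ RA) (rep : Finset V → V)
    (hrep : ∀ Q ∈ bigs Gm univ km, rep Q ∈ Q) (f : V → ℝ) :
    ∑ Q ∈ bigs Gm univ km, (f (rep Q) -
      (∑ Q' ∈ bigs Gm univ km, f (rep Q')) / (bigs Gm univ km).card) ^ 2 ≤
      8 * ab * (ab + 1) * (2 * R₀ + RA) * Dir c f := by
  classical
  obtain ⟨S, hS⟩ : ∃ S, S = bigs Gm univ km := ⟨_, rfl⟩
  obtain ⟨A, hA⟩ : ∃ A : Finset V → Finset V → Prop, A = fun P Q => P ≠ Q ∧ cadj GA P Q := ⟨_, rfl⟩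
  have hAsymm : ∀ P Q, A P Q → A Q P := by
    intro P Q h
    rw [hA] at h ⊢
    obtain ⟨h1, u, hu, w, hw, h2⟩ := h
    exact ⟨h1.symm, w, hw, u, hu, F.symm_A _ _ h2⟩
  have hdeg : ∀ P ∈ S, (S.filter fun Q => A P Q).card ≤ ab := by
    intro P hP
    rw [hS] at hP
    refine bigs_degree Gm GA GW km lmax r' r'' k₀ lm ab eb F P hP _ fun Q hQ => ?_
    rw [Finset.mem_filter, hA, hS] at hQ
    exact ⟨hQ.1, hQ.2.1, hQ.2.2⟩
  have hexp : ∀ X ⊆ S, 2 * X.card ≤ S.card →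
      (1 / 2 : ℝ) * X.card ≤ ((X ×ˢ (S \ X)).filter fun p => A p.1 p.2).card := by
    intro X hX hX2
    have h6 := F.d6 X (by rw [← hS]; exact hX) (by rw [← hS]; exact hX2)
    have h7 : ((bigs Gm univ km \ X).filter fun Q => ∃ P ∈ X, cadj GA P Q).card ≤
        ((X ×ˢ (S \ X)).filter fun p => A p.1 p.2).card := by
      have hch : ∀ Q : Finset V, ∃ P : Finset V, (∃ P ∈ X, cadj GA P Q) → P ∈ X ∧ cadj GA P Q := by
        intro Q
        by_cases h : ∃ P ∈ X, cadj GA P Q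
        · obtain ⟨P, hP, hPQ⟩ := h
          exact ⟨P, fun _ => ⟨hP, hPQ⟩⟩
        · exact ⟨Q, fun h' => absurd h' h⟩
      choose p hp using hch
      refine Finset.card_le_card_of_injOn (fun Q => (p Q, Q)) ?_ ?_
      · intro Q hQ
        rw [Finset.mem_coe, en_mem_filter, pn_mem_sdiff] at hQ
        rw [Finset.mem_coe, en_mem_filter, Finset.mem_product, Finset.mem_sdiff, hA, hS]
        have h1 := hp Q hQ.2
        refine ⟨⟨h1.1, hQ.1⟩, ?_, h1.2⟩
        intro h2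
        have h3 : p Q = Q := h2
        rw [h3] at h1
        exact hQ.1.2 h1.1
      · intro Q _ Q' _ h
        exact (Prod.ext_iff.1 h).2
    have h8 : X.card ≤ 2 * ((X ×ˢ (S \ X)).filter fun p => A p.1 p.2).card := by
      have h6' : X.card ≤ 2 * ((bigs Gm univ km \ X).filter fun Q => ∃ P ∈ X, cadj GA P Q).card := by
        refine h6.trans (Nat.mul_le_mul_left 2 (Finset.card_le_card fun Q hQ => ?_))
        rw [en_mem_filter, pn_mem_sdiff] at hQ ⊢
        exact hQ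
      omega
    have h9 : (X.card : ℝ) ≤ 2 * (((X ×ˢ (S \ X)).filter fun p => A p.1 p.2).card : ℝ) := by
      exact_mod_cast h8
    linarith
  have hch := cheeger S A hAsymm ab (fun P hP => by
      refine le_trans (Finset.card_le_card fun Q hQ => ?_) (hdeg P hP)
      rw [en_mem_filter] at hQ ⊢
      exact hQ) (1 / 2) (by norm_num)
    (fun X hX hX2 => by
      refine (hexp X hX hX2).trans (Nat.cast_le.2 (Finset.card_le_card fun p hp => ?_))
      rw [en_mem_filter, Finset.mem_product, pn_mem_sdiff] at hp ⊢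
      exact hp) (fun Q => f (rep Q))
  rw [← hS]
  refine hch.trans ?_
  have hDir := Dir_nonneg hC.pos f
  have hRR : 0 ≤ 2 * R₀ + RA := by linarith
  have hconn : ∀ p : Finset V × Finset V, ∃ x : V × V, A p.1 p.2 →
      x.1 ∈ p.1 ∧ x.2 ∈ p.2 ∧ GA x.1 x.2 := by
    intro p
    by_cases h : A p.1 p.2
    · have h' := h
      rw [hA] at h'
      obtain ⟨-, u, hu, w, hw, huw⟩ := h'
      exact ⟨(u, w), fun _ => ⟨hu, hw, huw⟩⟩
    · exact ⟨(rep ∅, rep ∅), fun h' => absurd h' h⟩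
  choose x hx using hconn
  have hmem : ∀ p : Finset V × Finset V, p ∈ (S ×ˢ S).filter (fun p => A p.1 p.2) ↔
      (p.1 ∈ S ∧ p.2 ∈ S) ∧ A p.1 p.2 := by
    intro p
    rw [en_mem_filter, Finset.mem_product]
  have hterm : ∀ p ∈ (S ×ˢ S).filter (fun p => A p.1 p.2), (f (rep p.1) - f (rep p.2)) ^ 2 ≤
      (2 * R₀ + RA) * (En c f p.1 + c s((x p).1, (x p).2) * sqd f s((x p).1, (x p).2) +
        En c f p.2) := by
    intro p hp
    obtain ⟨⟨h1, h2⟩, h3⟩ := (hmem p).1 hp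
    rw [hS] at h1 h2
    obtain ⟨h4, h5, h6⟩ := hx p h3
    have e1 := bigs_eq F.symm_m h1 (hrep _ h1)
    have e2 := bigs_eq F.symm_m h2 (hrep _ h2)
    have h7 := conn_resist hC hR₀ hRA f (z := rep p.1) (r := rep p.2) (u := (x p).1)
      (w := (x p).2) (by rw [e1]; exact h4) (by rw [e2]; exact h5) h6
    rw [e1, e2] at h7
    exact h7
  have hdisj : ∀ P ∈ S, ∀ Q ∈ S, P ≠ Q → Disjoint P Q := by
    intro P hP Q hQ hne
    rw [hS] at hP hQ
    exact bigs_disjoint F.symm_m hP hQ hne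
  have hEn : ∑ P ∈ S, En c f P ≤ Dir c f := sum_En_le hC.pos f S (fun P => P) hdisj
  have hs1 : ∑ p ∈ (S ×ˢ S).filter (fun p => A p.1 p.2), En c f p.1 ≤ ab * Dir c f :=
    (pn_sum_fst S A ab hdeg (fun P => En c f P) (fun P => En_nonneg hC.pos f P)).trans
      (mul_le_mul_of_nonneg_left hEn (Nat.cast_nonneg _))
  have hdeg' : ∀ Q ∈ S, (S.filter fun P => A P Q).card ≤ ab := by
    intro Q hQ
    refine le_trans (le_of_eq ?_) (hdeg Q hQ)
    congr 1
    ext P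
    rw [en_mem_filter, en_mem_filter]
    exact ⟨fun h => ⟨h.1, hAsymm _ _ h.2⟩, fun h => ⟨h.1, hAsymm _ _ h.2⟩⟩
  have hs2 : ∑ p ∈ (S ×ˢ S).filter (fun p => A p.1 p.2), En c f p.2 ≤ ab * Dir c f :=
    (pn_sum_snd S A ab hdeg' (fun P => En c f P) (fun P => En_nonneg hC.pos f P)).trans
      (mul_le_mul_of_nonneg_left hEn (Nat.cast_nonneg _))
  have hs3 : ∑ p ∈ (S ×ˢ S).filter (fun p => A p.1 p.2),
      c s((x p).1, (x p).2) * sqd f s((x p).1, (x p).2) ≤ 2 * Dir c f := by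
    have hinj : Set.InjOn x ((S ×ˢ S).filter (fun p => A p.1 p.2) : Finset _) := by
      intro p hp q hq heq
      rw [Finset.mem_coe, hmem, hS] at hp hq
      have h1 := hx p hp.2
      have h2 := hx q hq.2
      rw [← heq] at h2
      have e1 := (bigs_eq F.symm_m hp.1.1 h1.1).symm.trans (bigs_eq F.symm_m hq.1.1 h2.1)
      have e2 := (bigs_eq F.symm_m hp.1.2 h1.2.1).symm.trans (bigs_eq F.symm_m hq.1.2 h2.2.1)
      exact Prod.ext e1 e2
    have h1 : ∑ p ∈ (S ×ˢ S).filter (fun p => A p.1 p.2),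
        c s((x p).1, (x p).2) * sqd f s((x p).1, (x p).2) =
        ∑ y ∈ ((S ×ˢ S).filter (fun p => A p.1 p.2)).image x,
          c s(y.1, y.2) * sqd f s(y.1, y.2) := by
      rw [Finset.sum_image hinj]
    rw [h1]
    exact sum_pairs_le (fun e => c e * sqd f e)
      (fun e => mul_nonneg (hC.pos e).le (sqd_nonneg f e)) _
  have hsum : ∑ p ∈ (S ×ˢ S).filter (fun p => A p.1 p.2), (f (rep p.1) - f (rep p.2)) ^ 2 ≤
      (2 * R₀ + RA) * (2 * (ab + 1) * Dir c f) := by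
    refine (Finset.sum_le_sum hterm).trans ?_
    rw [← Finset.mul_sum]
    refine mul_le_mul_of_nonneg_left ?_ hRR
    rw [Finset.sum_add_distrib, Finset.sum_add_distrib]
    linarith
  have hfin : (ab : ℝ) / (1 / 2) ^ 2 * ∑ p ∈ (S ×ˢ S).filter (fun p => A p.1 p.2),
      (f (rep p.1) - f (rep p.2)) ^ 2 ≤ 8 * ab * (ab + 1) * (2 * R₀ + RA) * Dir c f := by
    have h4 : (ab : ℝ) / (1 / 2) ^ 2 = 4 * ab := by ring
    rw [h4]
    have h5 := mul_le_mul_of_nonneg_left hsum (by positivity : (0 : ℝ) ≤ 4 * ab)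
    calc _ ≤ 4 * (ab : ℝ) * ((2 * R₀ + RA) * (2 * (ab + 1) * Dir c f)) := h5
      _ = 8 * ab * (ab + 1) * (2 * R₀ + RA) * Dir c f := by ring
  rw [Finset.filter_congr_decidable] at hfin ⊢
  exact hfin

end RST.I
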