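import Pool.Agent.Lib.MP_7946c7_pr.I.Exc
import Pool.Agent.Lib.MP_7946c7_pr.IfC

/-!
# Choice of the blocks (steps 1, 3, 4 of section I)

Proof. `B = M₀ / (2 l₁)` blocks, `t_b ∈ [2 b l₁, (2 b + 1) l₁]` with `γ t_b` good (`hgood`),
`σ_b = [t_b, t_b + r']`. For a component `Q`, `#{b : γ t_b ∈ Q} ≤ ab + eb + 1` (`exc_count`, distance
`≥ l₁ ≥ lmax`). Choose blocks with distinct components `C_b` of `γ t_b` (at least
`B / (ab + eb + 1)`). Each has `s_b ∈ bigs`: `s_b = C_b` or `GA u_b w_b`, `u_b ∈ C_b`, `w_b ∈ s_b`.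
Given `s`: blocks with `σ_b` meeting `s`: `≤ ab + eb + 1` (`exc_count`, distance `≥ l₁ - r' ≥ lmax`);
the others: digraph `b → b'` if `σ_b` meets `C_{b'}`, outdegree `≤ k₀ + 1` (`d3`: `σ_b` has at most
`k₀` window edges), `indep_set` with `d = k₀ + 1`: an independent set `I` with `# ≤ (2 k₀ + 3) |I|`;
for `b ∈ I` the arm is the `Gm`-path from `u_b` to `γ t_b` inside `C_b` up to its first vertex on
`σ_b`, then the longer half of `σ_b`, truncated at `r''` (`r'' = r' / 2`); these arms are disjoint and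
avoid `s`, so `|I| ≤ ab` (`d4` at a vertex of `s`, the starting points are the `u_b`). So at most
`ab + eb + 1 + (2 k₀ + 3) ab ≤ (2 k₀ + 4) (ab + eb + 2)` blocks have `s_b = s`.
-/

open Finset

set_option linter.unusedSectionVars false

namespace RST.I

theorem saw_mono' {V : Type} {R R' : V → V → Prop} (h : ∀ u v, R u v → R' u v) {γ : ℕ → V} {ℓ : ℕ}
    (hγ : IsSAW R γ ℓ) : IsSAW R' γ ℓ :=
  ⟨fun i hi => h _ _ (hγ.1 i hi), hγ.2⟩

theorem rch_saw {V : Type} {R : V → V → Prop} {W : Finset V} {u v : V} (h : Rch R W u v) :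
    ∃ (γ : ℕ → V) (ℓ : ℕ), γ 0 = u ∧ γ ℓ = v ∧ IsSAW R γ ℓ := by
  induction h with
  | refl =>
    refine ⟨fun _ => u, 0, rfl, rfl, fun i hi => absurd hi (by omega), fun i hi j hj _ => by omega⟩
  | @tail b c _ hbc ih =>
    obtain ⟨γ, ℓ, h0, hl, hs⟩ := ih
    by_cases hc : ∃ i ≤ ℓ, γ i = c
    · obtain ⟨i, hi, hic⟩ := hc
      exact ⟨γ, i, h0, hic, fun j hj => hs.1 j (by omega),
        fun j hj k hk h => hs.2 j (by omega) k (by omega) h⟩
    · push Not at hc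
      refine ⟨fun i => if i ≤ ℓ then γ i else c, ℓ + 1, by simpa using h0, by simp, ?_, ?_⟩
      · intro i hi
        rcases Nat.lt_or_ge i ℓ with h1 | h1
        · have e1 : i ≤ ℓ := by omega
          have e2 : i + 1 ≤ ℓ := by omega
          simpa [e1, e2] using hs.1 i h1
        · have e1 : i = ℓ := by omega
          subst e1
          simpa [hl] using hbc.1
      · intro i hi j hj hij
        by_cases h1 : i ≤ ℓ <;> by_cases h2 : j ≤ ℓ
        · simp only [h1, h2, if_true] at hij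
          exact hs.2 i h1 j h2 hij
        · simp only [h1, h2, if_true, if_false] at hij
          exact absurd hij (hc i h1)
        · simp only [h1, h2, if_true, if_false] at hij
          exact absurd hij.symm (hc j h2)
        · omega

/-- A walk ending at the origin of `σ`, followed up to its first vertex on `σ`, and continued by
the longer half of `σ`. -/
theorem half_arm {V : Type} {R : V → V → Prop} (hR : ∀ u v, R u v → R v u) {A σ : ℕ → V}
    {p r' r'' : ℕ} (hr : r'' = r' / 2) (hA : IsSAW R A p) (hσ : IsSAW R σ r') (h0 : A p = σ 0) :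
    ∃ δ : ℕ → V, δ 0 = A 0 ∧ IsSAW R δ r'' ∧
      ∀ i ≤ r'', (∃ j ≤ p, δ i = A j) ∨ (∃ j ≤ r', δ i = σ j) := by
  classical
  have hex : ∃ q, q ≤ p ∧ ∃ j ≤ r', A q = σ j := ⟨p, le_rfl, 0, Nat.zero_le _, h0⟩
  obtain ⟨hq, j, hj, hqj⟩ := Nat.find_spec hex
  set q := Nat.find hex with hqdef
  have hmin : ∀ i < q, ∀ k ≤ r', A i ≠ σ k := by
    intro i hi k hk h
    exact Nat.find_min hex hi ⟨by omega, k, hk, h⟩
  have hAq : IsSAW R A q := ⟨fun i hi => hA.1 i (by omega),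
    fun i hi k hk h => hA.2 i (by omega) k (by omega) h⟩
  -- the half of `σ`
  have hB : ∃ (B : ℕ → V) (m : ℕ), r'' ≤ m ∧ B 0 = σ j ∧ IsSAW R B m ∧
      ∀ i ≤ m, ∃ k ≤ r', B i = σ k := by
    rcases Nat.lt_or_ge (r' / 2) j with h1 | h1
    · refine ⟨fun i => σ (j - i), j, by omega, by simp, saw_rev hR hσ j j hj le_rfl, ?_⟩
      exact fun i hi => ⟨j - i, by omega, rfl⟩
    · refine ⟨fun i => σ (j + i), r' - j, by omega, by simp, saw_sub hσ j (r' - j) (by omega), ?_⟩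
      exact fun i hi => ⟨j + i, by omega, rfl⟩
  obtain ⟨B, m, hm, hB0, hBs, hBσ⟩ := hB
  have hcat := saw_cat hAq hBs (hqj.trans hB0.symm) (fun i hi k hk h => by
    obtain ⟨k', hk', hk2⟩ := hBσ k hk
    exact hmin i hi k' hk' (h.trans hk2))
  refine ⟨cat A q B, cat_le A q B 0 (Nat.zero_le _), ?_, ?_⟩
  · exact ⟨fun i hi => hcat.1 i (by omega), fun i hi k hk h => hcat.2 i (by omega) k (by omega) h⟩
  · intro i hi
    rcases Nat.lt_or_ge q i with h1 | h1
    · right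
      rw [cat_ge A q B (hqj.trans hB0.symm) i h1.le]
      obtain ⟨k', hk', hk2⟩ := hBσ (i - q) (by omega)
      exact ⟨k', hk', hk2⟩
    · left
      exact ⟨i, by omega, cat_le A q B i h1⟩

variable {V : Type} [Fintype V]

/-- The number of components met by a short walk, except that of its first vertex. -/
theorem visits_count {Gm GW : V → V → Prop} {k₀ r' : ℕ} (hm : ∀ u v, Gm u v → Gm v u)
    (d3 : ∀ (γ : ℕ → V) (ℓ : ℕ), IsSAW GW γ ℓ → ℓ ≤ r' →
      (open Classical in ((range ℓ).filter fun i => ¬ Gm (γ i) (γ (i + 1))).card ≤ k₀))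
    {σ : ℕ → V} (hσ : IsSAW GW σ r') (C : Finset (Finset V))
    (hC : ∀ Q ∈ C, σ 0 ∉ Q ∧ (∀ v ∈ Q, cmp Gm univ v = Q) ∧ ∃ i ≤ r', σ i ∈ Q) :
    C.card ≤ k₀ := by
  classical
  refine le_trans ?_ (d3 σ r' hσ le_rfl)
  have key : ∀ Q ∈ C, ∃ i, i < r' ∧ σ i ∉ Q ∧ σ (i + 1) ∈ Q := by
    intro Q hQ
    obtain ⟨h0, _, hex⟩ := hC Q hQ
    obtain ⟨hi, hiQ⟩ := Nat.find_spec hex
    have hpos : Nat.find hex ≠ 0 := by
      intro h
      rw [h] at hiQ
      exact h0 hiQ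
    refine ⟨Nat.find hex - 1, by omega, fun h => ?_, ?_⟩
    · exact Nat.find_min hex (m := Nat.find hex - 1) (by omega) ⟨by omega, h⟩
    · rwa [Nat.sub_add_cancel (by omega)]
  choose! g hg1 hg2 hg3 using key
  refine Finset.card_le_card_of_injOn g ?_ ?_
  · intro Q hQ
    rw [mem_coe, mem_filter, mem_range]
    refine ⟨hg1 Q hQ, fun h => hg2 Q hQ ?_⟩
    have h1 := (hC Q hQ).2.1 _ (hg3 Q hQ)
    have h2 : σ (g Q) ∈ cmp Gm univ (σ (g Q + 1)) := mem_cmp.2 (rch_edge (hm _ _ h))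
    rwa [h1] at h2
  · intro Q hQ Q' hQ' h
    rw [← (hC Q hQ).2.1 _ (hg3 Q hQ), ← (hC Q' hQ').2.1 _ (hg3 Q' hQ'), h]

/-- The blocks with a given neighbour. -/
theorem fiber_le (Gm GA GW : V → V → Prop) (km lmax r' r'' k₀ lm ab eb : ℕ)
    (F : DFacts Gm GA GW km lmax r' r'' k₀ lm ab eb) (hr : r'' = r' / 2) (hr' : 2 ≤ r')
    (hlm : 2 * k₀ + 4 ≤ lm) (γ : ℕ → V) (M₀ l₁ : ℕ) (hγ : IsSAW GW γ M₀)
    (hl₁ : 2 * lmax ≤ l₁) (hl₂ : 4 * r' ≤ l₁) {B : ℕ} (t : Fin B → ℕ)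
    (ht : ∀ b, t b + r' ≤ M₀) (htg : ∀ b b', b < b' → t b + l₁ ≤ t b')
    (T : Finset (Fin B)) (hT : ∀ b ∈ T, ∀ b' ∈ T, b ≠ b' →
      cmp Gm univ (γ (t b)) ≠ cmp Gm univ (γ (t b')))
    (v₀ : V) (u w : Fin B → V)
    (huw : ∀ b ∈ T, γ (t b) ∈ cmp Gm univ v₀ ∨ (u b ∈ cmp Gm univ (γ (t b)) ∧
      w b ∈ cmp Gm univ v₀ ∧ GA (u b) (w b))) :
    T.card ≤ (2 * k₀ + 4) * (ab + eb + 2) := by
  classical
  have hm := F.symm_m
  rcases T.eq_empty_or_nonempty with hT0 | ⟨bT, _⟩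
  · rw [hT0]
    simp
  have : Nonempty (Fin B) := ⟨bT⟩
  have : Nonempty V := ⟨v₀⟩
  set T₁ := T.filter fun b => ∃ i ≤ r', γ (t b + i) ∈ cmp Gm univ v₀ with hT₁
  set T₂ := T.filter fun b => ¬ ∃ i ≤ r', γ (t b + i) ∈ cmp Gm univ v₀ with hT₂
  have hcard : T.card = T₁.card + T₂.card := (card_filter_add_card_filter_not _).symm
  -- blocks meeting the component of `v₀`
  have h1 : T₁.card ≤ ab + eb + 1 := by
    have key : ∀ b ∈ T₁, ∃ i ≤ r', γ (t b + i) ∈ cmp Gm univ v₀ := fun b hb => (mem_filter.1 hb).2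
    choose! g hg1 hg2 using key
    have hlt : ∀ b ∈ T₁, ∀ b' ∈ T₁, b < b' → t b + g b + lmax ≤ t b' + g b' := by
      intro b hb b' hb' h
      have := htg b b' h
      have := hg1 b hb
      omega
    have hinj : Set.InjOn (fun b => t b + g b) T₁ := by
      intro b hb b' hb' h
      simp only at h
      rcases lt_trichotomy b b' with h2 | h2 | h2
      · have h3 := htg b b' h2
        have h4 := hg1 b hb
        omega
      · exact h2
      · have h3 := htg b' b h2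
        have h4 := hg1 b' hb'
        omega
    rw [← card_image_of_injOn hinj]
    refine exc_count Gm GA GW km lmax r' r'' k₀ lm ab eb F hr hr' hlm γ M₀ hγ v₀ _ ?_ ?_
    · intro p hp
      obtain ⟨b, hb, rfl⟩ := mem_image.1 hp
      have h3 := ht b
      have h4 := hg1 b hb
      exact ⟨by omega, hg2 b hb⟩
    · intro p hp p' hp' hpp
      obtain ⟨b, hb, rfl⟩ := mem_image.1 hp
      obtain ⟨b', hb', rfl⟩ := mem_image.1 hp'
      rcases lt_trichotomy b b' with h2 | h2 | h2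
      · exact hlt b hb b' hb' h2
      · subst h2; omega
      · have h3 := htg b' b h2
        have h4 := hg1 b' hb'
        omega
  -- the other blocks
  have hT2 : ∀ b ∈ T₂, b ∈ T ∧ ∀ i ≤ r', γ (t b + i) ∉ cmp Gm univ v₀ := by
    intro b hb
    have := (mem_filter.1 hb)
    refine ⟨this.1, fun i hi h => this.2 ⟨i, hi, h⟩⟩
  have hσ : ∀ b, IsSAW GW (fun i => γ (t b + i)) r' := fun b => saw_sub hγ (t b) r' (ht b)
  obtain ⟨I, hI1, hI2, hI3⟩ := indep_set T₂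
    (fun b b' => ∃ i ≤ r', γ (t b + i) ∈ cmp Gm univ (γ (t b'))) k₀ (by
      intro b hb
      have hinj : Set.InjOn (fun b' => cmp Gm univ (γ (t b')))
          (T₂.filter fun b' => b' ≠ b ∧ ∃ i ≤ r', γ (t b + i) ∈ cmp Gm univ (γ (t b'))) := by
        intro x hx y hy hxy
        by_contra hne
        exact hT x (hT2 x (mem_filter.1 hx).1).1 y (hT2 y (mem_filter.1 hy).1).1 hne hxy
      have hfin : (T₂.filter fun b' => b' ≠ b ∧
          ∃ i ≤ r', γ (t b + i) ∈ cmp Gm univ (γ (t b'))).card ≤ k₀ := by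
        rw [← card_image_of_injOn hinj]
        refine visits_count (GW := GW) hm F.d3 (hσ b) _ ?_
        intro Q hQ
        obtain ⟨b', hb', rfl⟩ := mem_image.1 hQ
        obtain ⟨hb1, hb2, hb3⟩ := mem_filter.1 hb'
        refine ⟨fun h => ?_, fun v hv => cmp_eq hm hv, hb3⟩
        exact hT b' (hT2 b' hb1).1 b (hT2 b hb).1 hb2 (cmp_eq hm (by simpa using h)).symm
      convert hfin)
  -- arms
  have hIT : ∀ b ∈ I, u b ∈ cmp Gm univ (γ (t b)) ∧ w b ∈ cmp Gm univ v₀ ∧ GA (u b) (w b) := by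
    intro b hb
    have h2 := hT2 b (hI1 hb)
    rcases huw b h2.1 with h3 | h3
    · exact absurd h3 (by simpa using h2.2 0 (Nat.zero_le _))
    · exact h3
  have harm : ∀ b ∈ I, ∃ δ : ℕ → V, δ 0 = u b ∧ IsSAW GW δ r'' ∧
      ∀ i ≤ r'', δ i ∈ cmp Gm univ (γ (t b)) ∨ ∃ j ≤ r', δ i = γ (t b + j) := by
    intro b hb
    obtain ⟨h2, h3, h4⟩ := hIT b hb
    obtain ⟨A, p, hA0, hAp, hA⟩ := rch_saw (rch_symm hm (mem_cmp.1 h2))
    obtain ⟨δ, hδ0, hδ, hδ2⟩ := half_arm (R := GW) F.symm_L hr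
      (saw_mono' (fun x y h => F.le_L _ _ (F.le_A _ _ h)) hA) (hσ b) (by simpa using hAp)
    refine ⟨δ, hδ0.trans hA0, hδ, fun i hi => ?_⟩
    rcases hδ2 i hi with ⟨j, hj, h5⟩ | ⟨j, hj, h5⟩
    · left
      rw [h5]
      have h6 := saw_mem_cmp hA j hj
      rw [hA0] at h6
      rw [← cmp_eq hm h2]
      exact h6
    · right
      exact ⟨j, hj, h5⟩
  choose! δ hδ0 hδ hδ2 using harm
  have hdisj : ∀ b ∈ I, ∀ b' ∈ I, b ≠ b' → ∀ x, x ∈ cmp Gm univ (γ (t b)) →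
      x ∉ cmp Gm univ (γ (t b')) := by
    intro b hb b' hb' hne x hx hx'
    exact hT b (hT2 b (hI1 hb)).1 b' (hT2 b' (hI1 hb')).1 hne
      ((cmp_eq hm hx).symm.trans (cmp_eq hm hx'))
  have hinj : Set.InjOn u I := by
    intro b hb b' hb' h
    by_contra hne
    exact hdisj b hb b' hb' hne (u b) (hIT b hb).1 (h ▸ (hIT b' hb').1)
  have hσσ : ∀ b b', b ≠ b' → ∀ j ≤ r', ∀ j' ≤ r', γ (t b + j) ≠ γ (t b' + j') := by
    intro b b' hne j hj j' hj' h
    have h2 := hγ.2 (t b + j) (by have := ht b; omega) (t b' + j') (by have := ht b'; omega) h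
    rcases lt_or_gt_of_ne hne with h3 | h3
    · have := htg b b' h3
      omega
    · have := htg b' b h3
      omega
  have hI : I.card ≤ ab := by
    rw [← card_image_of_injOn hinj]
    refine F.d4 v₀ _ ?_ ?_
    · intro x hx
      obtain ⟨b, hb, rfl⟩ := mem_image.1 hx
      obtain ⟨h2, h3, h4⟩ := hIT b hb
      refine ⟨fun h => ?_, w b, h3, F.symm_L _ _ (F.le_L _ _ h4)⟩
      have h5 : γ (t b) ∈ cmp Gm univ v₀ := by
        rw [← cmp_eq hm h]
        exact mem_cmp_symm hm h2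
      exact (hT2 b (hI1 hb)).2 0 (Nat.zero_le _) (by simpa using h5)
    · have hinv : ∀ x ∈ I.image u, ∃ b ∈ I, u b = x := fun x hx => mem_image.1 hx
      choose! β hβ1 hβ2 using hinv
      refine ⟨fun x => δ (β x), ?_, ?_⟩
      · intro x hx
        refine ⟨(hδ0 _ (hβ1 x hx)).trans (hβ2 x hx), hδ _ (hβ1 x hx), fun i hi => ?_⟩
        rw [mem_sdiff]
        refine ⟨mem_univ _, fun h => ?_⟩
        have hb := hβ1 x hx
        simp only at h
        rcases hδ2 _ hb i hi with h6 | ⟨j, hj, h6⟩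
        · have h5 : γ (t (β x)) ∈ cmp Gm univ v₀ := by
            rw [← cmp_eq hm h]
            exact mem_cmp_symm hm h6
          exact (hT2 _ (hI1 hb)).2 0 (Nat.zero_le _) (by simpa using h5)
        · rw [h6] at h
          exact (hT2 _ (hI1 hb)).2 j hj h
      · intro x hx x' hx' hne i hi j hj h
        simp only at h
        have hb := hβ1 x hx
        have hb' := hβ1 x' hx'
        have hbb : β x ≠ β x' := by
          intro h7
          apply hne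
          rw [← hβ2 x hx, ← hβ2 x' hx', h7]
        rcases hδ2 _ hb i hi with h6 | ⟨k, hk, h6⟩ <;> rcases hδ2 _ hb' j hj with h7 | ⟨k', hk', h7⟩
        · exact hdisj _ hb _ hb' hbb _ h6 (h ▸ h7)
        · refine hI3 _ hb' _ hb (Ne.symm hbb) ⟨k', hk', ?_⟩
          rw [← h7, ← h]
          exact h6
        · refine hI3 _ hb _ hb' hbb ⟨k, hk, ?_⟩
          rw [← h6, h]
          exact h7
        · exact hσσ _ _ hbb k hk k' hk' (h6.symm.trans (h.trans h7))
  have h2 : T₂.card ≤ (2 * k₀ + 1) * ab := hI2.trans (Nat.mul_le_mul_left _ hI)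
  rw [hcard]
  calc T₁.card + T₂.card ≤ (ab + eb + 1) + (2 * k₀ + 1) * ab := Nat.add_le_add h1 h2
    _ ≤ (2 * k₀ + 4) * (ab + eb + 2) := by nlinarith

theorem select (Gm GA GW : V → V → Prop) (km lmax r' r'' k₀ lm ab eb : ℕ)
    (F : DFacts Gm GA GW km lmax r' r'' k₀ lm ab eb) (hr : r'' = r' / 2) (hr' : 2 ≤ r')
    (hlm : 2 * k₀ + 4 ≤ lm) (γ : ℕ → V) (M₀ l₁ : ℕ) (hγ : IsSAW GW γ M₀)
    (hl₁ : 2 * lmax ≤ l₁) (hl₂ : 4 * r' ≤ l₁)
    (hgood : ∀ i, i + l₁ ≤ M₀ → ∃ t, i ≤ t ∧ t ≤ i + l₁ ∧ AGood Gm GA km (γ t)) (mg : ℝ)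
    (hmg : 0 < mg)
    (hmg2 : mg * (ab + eb + 1) * ((2 * k₀ + 4) * (ab + eb + 2)) ≤ (M₀ / (2 * l₁) : ℕ)) :
    ∃ (D : Finset (Finset V)) (z u w : Finset V → V), D ⊆ bigs Gm univ km ∧ mg ≤ D.card ∧
      (∀ s ∈ D, (∃ i ≤ M₀, z s = γ i) ∧
        (z s ∈ s ∨ (u s ∈ cmp Gm univ (z s) ∧ w s ∈ s ∧ GA (u s) (w s)))) ∧
      ∀ s ∈ D, ∀ s' ∈ D, s ≠ s' → cmp Gm univ (z s) ≠ cmp Gm univ (z s') := by
  classical
  have hm := F.symm_m
  obtain ⟨B, hB⟩ : ∃ B, B = M₀ / (2 * l₁) := ⟨_, rfl⟩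
  rw [← hB] at hmg2
  have hBM : B * (2 * l₁) ≤ M₀ := hB ▸ Nat.div_mul_le_self _ _
  have hblk : ∀ b : Fin B, (b : ℕ) * (2 * l₁) + 2 * l₁ ≤ M₀ := by
    intro b
    have h1 : (b : ℕ) + 1 ≤ B := b.2
    have h2 : ((b : ℕ) + 1) * (2 * l₁) ≤ B * (2 * l₁) := Nat.mul_le_mul_right _ h1
    have h3 : ((b : ℕ) + 1) * (2 * l₁) = (b : ℕ) * (2 * l₁) + 2 * l₁ := by ring
    omega
  have hch : ∀ b : Fin B, ∃ t, (b : ℕ) * (2 * l₁) ≤ t ∧ t ≤ (b : ℕ) * (2 * l₁) + l₁ ∧
      AGood Gm GA km (γ t) := fun b => hgood _ (by have := hblk b; omega)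
  choose t ht1 ht2 ht3 using hch
  have ht : ∀ b, t b + r' ≤ M₀ := by
    intro b
    have h1 := hblk b
    have h2 := ht2 b
    omega
  have htg : ∀ b b', b < b' → t b + l₁ ≤ t b' := by
    intro b b' h
    have h1 : (b : ℕ) + 1 ≤ (b' : ℕ) := h
    have h2 : ((b : ℕ) + 1) * (2 * l₁) ≤ (b' : ℕ) * (2 * l₁) := Nat.mul_le_mul_right _ h1
    have h3 : ((b : ℕ) + 1) * (2 * l₁) = (b : ℕ) * (2 * l₁) + 2 * l₁ := by ring
    have h4 := ht1 b'
    have h5 := ht2 b
    omega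
  -- blocks with distinct components
  set Cf : Fin B → Finset V := fun b => cmp Gm univ (γ (t b)) with hCf
  have hfib1 : ∀ Q ∈ (univ : Finset (Fin B)).image Cf,
      ((univ : Finset (Fin B)).filter fun b => Cf b = Q).card ≤ ab + eb + 1 := by
    intro Q hQ
    obtain ⟨b₀, _, rfl⟩ := mem_image.1 hQ
    have hinj : Set.InjOn t ((univ : Finset (Fin B)).filter fun b => Cf b = Cf b₀) := by
      intro b hb b' hb' h
      rcases lt_trichotomy b b' with h2 | h2 | h2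
      · have h3 := htg b b' h2
        omega
      · exact h2
      · have h3 := htg b' b h2
        omega
    rw [← card_image_of_injOn hinj]
    refine exc_count Gm GA GW km lmax r' r'' k₀ lm ab eb F hr hr' hlm γ M₀ hγ (γ (t b₀)) _ ?_ ?_
    · intro p hp
      obtain ⟨b, hb, rfl⟩ := mem_image.1 hp
      have h3 := ht b
      refine ⟨by omega, ?_⟩
      have h4 : Cf b = Cf b₀ := (mem_filter.1 hb).2
      have h5 : γ (t b) ∈ Cf b := self_mem_cmp Gm _
      rw [h4] at h5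
      exact h5
    · intro p hp p' hp' hpp
      obtain ⟨b, hb, rfl⟩ := mem_image.1 hp
      obtain ⟨b', hb', rfl⟩ := mem_image.1 hp'
      rcases lt_trichotomy b b' with h2 | h2 | h2
      · have := htg b b' h2
        omega
      · subst h2; omega
      · have h3 := htg b' b h2
        omega
  have hcount1 : B ≤ (ab + eb + 1) * ((univ : Finset (Fin B)).image Cf).card := by
    have := card_le_mul_card_image (f := Cf) (univ : Finset (Fin B)) (ab + eb + 1) hfib1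
    simpa using this
  have hinv : ∀ Q ∈ (univ : Finset (Fin B)).image Cf, ∃ b, Cf b = Q := by
    intro Q hQ
    obtain ⟨b, _, h⟩ := mem_image.1 hQ
    exact ⟨b, h⟩
  rcases Nat.eq_zero_or_pos B with hB0 | hBpos
  · exfalso
    rw [hB0] at hmg2
    have : (0 : ℝ) < mg * (ab + eb + 1) * ((2 * k₀ + 4) * (ab + eb + 2)) := by positivity
    simp at hmg2
    linarith
  have : Nonempty (Fin B) := ⟨⟨0, hBpos⟩⟩
  choose! β hβ using hinv
  set S₁ : Finset (Fin B) := ((univ : Finset (Fin B)).image Cf).image β with hS₁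
  have hβinj : Set.InjOn β ((univ : Finset (Fin B)).image Cf) := by
    intro Q hQ Q' hQ' h
    rw [← hβ Q hQ, ← hβ Q' hQ', h]
  have hS₁card : S₁.card = ((univ : Finset (Fin B)).image Cf).card := card_image_of_injOn hβinj
  have hS₁dist : ∀ b ∈ S₁, ∀ b' ∈ S₁, b ≠ b' → Cf b ≠ Cf b' := by
    intro b hb b' hb' hne h
    obtain ⟨Q, hQ, rfl⟩ := mem_image.1 hb
    obtain ⟨Q', hQ', rfl⟩ := mem_image.1 hb'
    rw [hβ Q hQ, hβ Q' hQ'] at h
    exact hne (by rw [h])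
  -- the neighbours
  have hnb : ∀ b : Fin B, ∃ (s : Finset V) (u w : V), s ∈ bigs Gm univ km ∧ (γ (t b) ∈ s ∨
      (u ∈ cmp Gm univ (γ (t b)) ∧ w ∈ s ∧ GA u w)) := by
    intro b
    rcases ht3 b with h1 | ⟨u, hu, w, hw, huw⟩
    · exact ⟨_, γ (t b), γ (t b), mem_bigs h1, Or.inl (self_mem_cmp Gm _)⟩
    · exact ⟨_, u, w, mem_bigs hw, Or.inr ⟨hu, self_mem_cmp Gm _, huw⟩⟩
  choose sf uf wf hsf huwf using hnb
  set D := S₁.image sf with hD
  have hcount2 : S₁.card ≤ ((2 * k₀ + 4) * (ab + eb + 2)) * D.card := by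
    refine card_le_mul_card_image (f := sf) S₁ _ ?_
    intro s hs
    obtain ⟨b₀, hb₀, rfl⟩ := mem_image.1 hs
    have hne : (sf b₀).Nonempty := by
      rcases huwf b₀ with h | ⟨_, h, _⟩
      · exact ⟨_, h⟩
      · exact ⟨_, h⟩
    obtain ⟨v₀, hv₀⟩ := hne
    have hs0 : cmp Gm univ v₀ = sf b₀ := bigs_eq hm (hsf b₀) hv₀
    refine fiber_le Gm GA GW km lmax r' r'' k₀ lm ab eb F hr hr' hlm γ M₀ l₁ hγ hl₁ hl₂ t ht htg
      _ ?_ v₀ uf wf ?_
    · intro b hb b' hb' hne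
      exact hS₁dist b (mem_filter.1 hb).1 b' (mem_filter.1 hb').1 hne
    · intro b hb
      rw [hs0, ← (mem_filter.1 hb).2]
      exact huwf b
  have hinv2 : ∀ s ∈ D, ∃ b, b ∈ S₁ ∧ sf b = s := fun s hs => mem_image.1 hs
  choose! α hα1 hα2 using hinv2
  refine ⟨D, fun s => γ (t (α s)), fun s => uf (α s), fun s => wf (α s), ?_, ?_, ?_, ?_⟩
  · intro s hs
    obtain ⟨b, _, rfl⟩ := mem_image.1 hs
    exact hsf b
  · have h1 : B ≤ (ab + eb + 1) * (((2 * k₀ + 4) * (ab + eb + 2)) * D.card) :=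
      hcount1.trans (Nat.mul_le_mul_left _ (hS₁card ▸ hcount2))
    have h2 : (B : ℝ) ≤ (ab + eb + 1) * (((2 * k₀ + 4) * (ab + eb + 2)) * D.card) := by
      exact_mod_cast h1
    have h3 : mg * (((ab : ℝ) + eb + 1) * ((2 * k₀ + 4) * (ab + eb + 2))) ≤
        (D.card : ℝ) * (((ab : ℝ) + eb + 1) * ((2 * k₀ + 4) * (ab + eb + 2))) := by
      nlinarith
    exact le_of_mul_le_mul_right h3 (by positivity)
  · intro s hs
    refine ⟨⟨t (α s), by have := ht (α s); omega, rfl⟩, ?_⟩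
    have := huwf (α s)
    rw [hα2 s hs] at this
    exact this
  · intro s hs s' hs' hne
    refine hS₁dist _ (hα1 s hs) _ (hα1 s' hs') (fun h => hne ?_)
    rw [← hα2 s hs, ← hα2 s' hs', h]

end RST.I
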