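import Pool.Agent.Lib.MP_7946c7_pr.I.Ene
import Pool.Agent.Lib.MP_7946c7_pr.I.Poinc
import Pool.Agent.Lib.MP_7946c7_pr.I.Sel

/-!
# The Dirichlet eigenvalue of a long walk
-/

open Finset

set_option linter.unusedSectionVars false

namespace RST.I

variable {V : Type} [Fintype V]

/-- Energy bound for the chosen components. -/
theorem chosen_le {Gm GA : V → V → Prop} (hm : ∀ u v, Gm u v → Gm v u) {c : Sym2 V → ℝ}
    {R₀ RA : ℝ} (hC : CFacts Gm GA c R₀ RA) (hR₀ : 0 ≤ R₀) (hRA : 0 ≤ RA) (km : ℕ)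
    (rep : Finset V → V) (hrep : ∀ Q ∈ bigs Gm univ km, rep Q ∈ Q) (f : V → ℝ)
    (D : Finset (Finset V)) (z u w : Finset V → V) (hD : D ⊆ bigs Gm univ km)
    (h1 : ∀ s ∈ D, f (z s) = 0 ∧
        (z s ∈ s ∨ (u s ∈ cmp Gm univ (z s) ∧ w s ∈ s ∧ GA (u s) (w s))))
    (h2 : ∀ s ∈ D, ∀ s' ∈ D, s ≠ s' → cmp Gm univ (z s) ≠ cmp Gm univ (z s')) :
    ∑ s ∈ D, f (rep s) ^ 2 ≤ 4 * (2 * R₀ + RA) * Dir c f := by
  classical
  set D' := D.filter fun s => ¬ z s ∈ s with hD'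
  have hEz := sum_En_le9 hm hC.pos f D z h2
  have hcs : ∀ s ∈ D, ∀ x ∈ s, cmp Gm univ x = s := fun s hs x hx => bigs_eq hm (hD hs) hx
  have hEs : ∑ s ∈ D, En9 c f s ≤ Dir c f := by
    have := sum_En_le9 hm hC.pos f D rep fun s hs s' hs' hne => by
      rw [hcs s hs _ (hrep s (hD hs)), hcs s' hs' _ (hrep s' (hD hs'))]
      exact hne
    refine le_trans (le_of_eq ?_) this
    exact sum_congr rfl fun s hs => by rw [hcs s hs _ (hrep s (hD hs))]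
  have hEe : ∑ s ∈ D', c s(u s, w s) * sqd f s(u s, w s) ≤ 2 * Dir c f := by
    refine sum_edge_le9 hC.pos f D' (fun s => s(u s, w s)) fun e => ?_
    induction e using Sym2.ind with
    | _ x y =>
      have hsub : (D'.filter fun s => s(u s, w s) = s(x, y)) ⊆
          {cmp Gm univ x, cmp Gm univ y} := fun s hs => by
        rw [mem_filter, hD', mem_filter] at hs
        obtain ⟨⟨hsD, hns⟩, he⟩ := hs
        rcases (h1 s hsD).2 with h | ⟨_, hw, _⟩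
        · exact absurd h hns
        · rw [mem_insert, mem_singleton]
          have := hcs s hsD _ hw
          rw [Sym2.eq_iff] at he
          rcases he with ⟨_, rfl⟩ | ⟨_, rfl⟩
          · exact Or.inr this.symm
          · exact Or.inl this.symm
      exact (card_le_card hsub).trans card_le_two
  have hpt : ∀ s ∈ D, f (rep s) ^ 2 ≤ (2 * R₀ + RA) * (En9 c f (cmp Gm univ (z s)) +
      (if ¬ z s ∈ s then c s(u s, w s) * sqd f s(u s, w s) else 0) + En9 c f s) := by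
    intro s hs
    have hrs := hrep s (hD hs)
    obtain ⟨hfz, hor⟩ := h1 s hs
    have e0 : f (rep s) ^ 2 = (f (z s) - f (rep s)) ^ 2 := by rw [hfz]; ring
    rw [e0]
    by_cases hz : z s ∈ s
    · rw [if_neg (not_not.2 hz), hcs s hs _ hz]
      have h3 := inside_En9 hC f (z s) (rep s) (by rw [hcs s hs _ hz]; exact hrs)
      rw [hcs s hs _ hz] at h3
      have h4 := En_nonneg9 hC.pos f s
      nlinarith [mul_nonneg hR₀ h4, mul_nonneg hRA h4]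
    · rw [if_pos hz]
      rcases hor with h | ⟨hu, hw, hA⟩
      · exact absurd h hz
      · have h3 := step_En9 hm hC hR₀ hRA f (z s) (u s) (w s) (rep s) hu
          (by rw [hcs s hs _ hw]; exact hrs) hA
        rwa [hcs s hs _ hw] at h3
  have hsum : ∑ s ∈ D, (if ¬ z s ∈ s then c s(u s, w s) * sqd f s(u s, w s) else 0) ≤
      2 * Dir c f := by
    rw [← sum_filter]
    exact hEe
  calc ∑ s ∈ D, f (rep s) ^ 2 ≤ ∑ s ∈ D, (2 * R₀ + RA) * (En9 c f (cmp Gm univ (z s)) +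
      (if ¬ z s ∈ s then c s(u s, w s) * sqd f s(u s, w s) else 0) + En9 c f s) :=
        sum_le_sum hpt
    _ = (2 * R₀ + RA) * (∑ s ∈ D, En9 c f (cmp Gm univ (z s)) +
        ∑ s ∈ D, (if ¬ z s ∈ s then c s(u s, w s) * sqd f s(u s, w s) else 0) +
        ∑ s ∈ D, En9 c f s) := by
        rw [← mul_sum, sum_add_distrib, sum_add_distrib]
    _ ≤ (2 * R₀ + RA) * (4 * Dir c f) :=
        mul_le_mul_of_nonneg_left (by linarith) (by linarith)
    _ = _ := by ring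

/-- Elementary: `∑_S f² ≤ ...` from the variance and the sum over a subset. -/
theorem mean_trick (S D : Finset (Finset V)) (hDS : D ⊆ S) (g : Finset V → ℝ) (mg A B : ℝ)
    (hmg : 0 < mg) (hD : mg ≤ D.card) (hA : ∑ s ∈ S, (g s - (∑ t ∈ S, g t) / S.card) ^ 2 ≤ A)
    (hB : ∑ s ∈ D, g s ^ 2 ≤ B) :
    ∑ s ∈ S, g s ^ 2 ≤ A + S.card / mg * (2 * A + 2 * B) := by
  set a := (∑ t ∈ S, g t) / S.card with ha
  have hDpos : (0 : ℝ) < D.card := lt_of_lt_of_le hmg hD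
  have hSpos : (0 : ℝ) < S.card := lt_of_lt_of_le hDpos (by exact_mod_cast card_le_card hDS)
  have hsum : ∑ t ∈ S, g t = S.card * a := by rw [ha]; field_simp
  have h1 : ∑ s ∈ S, g s ^ 2 = ∑ s ∈ S, (g s - a) ^ 2 + S.card * a ^ 2 := by
    have e : ∀ s, g s ^ 2 = (g s - a) ^ 2 + 2 * a * g s - a ^ 2 := fun s => by ring
    rw [sum_congr rfl fun s _ => e s, sum_sub_distrib, sum_add_distrib, ← mul_sum, hsum,
      sum_const, nsmul_eq_mul]
    ring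
  have hD2 : ∑ s ∈ D, (g s - a) ^ 2 ≤ A :=
    (sum_le_sum_of_subset_of_nonneg hDS fun _ _ _ => sq_nonneg _).trans hA
  have h2 : (D.card : ℝ) * a ^ 2 ≤ 2 * A + 2 * B := by
    calc (D.card : ℝ) * a ^ 2 = ∑ s ∈ D, a ^ 2 := by rw [sum_const, nsmul_eq_mul]
      _ ≤ ∑ s ∈ D, (2 * (g s - a) ^ 2 + 2 * g s ^ 2) := sum_le_sum fun s _ => by
          nlinarith [sq_nonneg (g s - a + g s)]
      _ = 2 * ∑ s ∈ D, (g s - a) ^ 2 + 2 * ∑ s ∈ D, g s ^ 2 := by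
          rw [sum_add_distrib, mul_sum, mul_sum]
      _ ≤ _ := by linarith
  have h3 : mg * a ^ 2 ≤ 2 * A + 2 * B :=
    (mul_le_mul_of_nonneg_right hD (sq_nonneg a)).trans h2
  have h4 : a ^ 2 ≤ (2 * A + 2 * B) / mg := by
    rw [le_div_iff₀ hmg]
    linarith
  rw [h1]
  have h5 : (S.card : ℝ) * a ^ 2 ≤ S.card * ((2 * A + 2 * B) / mg) :=
    mul_le_mul_of_nonneg_left h4 hSpos.le
  have h6 : (S.card : ℝ) * ((2 * A + 2 * B) / mg) = S.card / mg * (2 * A + 2 * B) := by ring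
  linarith

/-- I. Dirichlet eigenvalue of a long walk. -/
theorem dirichletS (Gm GA GW : V → V → Prop) (km lmax r' r'' k₀ lm ab eb : ℕ)
    (F : DFacts Gm GA GW km lmax r' r'' k₀ lm ab eb) (hr : r'' = r' / 2) (hr' : 2 ≤ r')
    (hlm : 2 * k₀ + 4 ≤ lm) (c : Sym2 V → ℝ) (R₀ RA : ℝ)
    (hC : CFacts Gm GA c R₀ RA) (hR₀ : 0 ≤ R₀) (hRA : 0 ≤ RA) (rep : Finset V → V)
    (hrep : ∀ Q ∈ bigs Gm univ km, rep Q ∈ Q) (γ : ℕ → V) (M₀ l₁ : ℕ) (hγ : IsSAW GW γ M₀)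
    (hl₁ : 2 * lmax ≤ l₁) (hl₂ : 4 * r' ≤ l₁)
    (hgood : ∀ i, i + l₁ ≤ M₀ → ∃ t, i ≤ t ∧ t ≤ i + l₁ ∧ AGood Gm GA km (γ t)) (mg : ℝ)
    (hmg : 0 < mg) (hmg2 : mg * (ab + eb + 1) * ((2 * k₀ + 4) * (ab + eb + 2)) ≤ (M₀ / (2 * l₁) : ℕ))
    (f : V → ℝ) (hf : ∀ i ≤ M₀, f (γ i) = 0) :
    ∑ Q ∈ bigs Gm univ km, f (rep Q) ^ 2 ≤
      50 * (ab + 1) ^ 2 * (2 * R₀ + RA) * ((bigs Gm univ km).card / mg + 1) * Dir c f := by
  classical
  obtain ⟨D, z, u, w, hDS, hDc, hD1, hD2⟩ := select Gm GA GW km lmax r' r'' k₀ lm ab eb F hr hr'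
    hlm γ M₀ l₁ hγ hl₁ hl₂ hgood mg hmg hmg2
  have hB := chosen_le F.symm_m hC hR₀ hRA km rep hrep f D z u w hDS (fun s hs => by
    obtain ⟨⟨i, hi, hzi⟩, h⟩ := hD1 s hs
    exact ⟨by rw [hzi]; exact hf i hi, h⟩) hD2
  have hA := poincareS Gm GA GW km lmax r' r'' k₀ lm ab eb F c R₀ RA hC hR₀ hRA rep hrep f
  have key := mean_trick (bigs Gm univ km) D hDS (fun Q => f (rep Q)) mg _ _ hmg hDc hA hB
  refine key.trans ?_
  have hE := Dir_nonneg9 hC.pos f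
  have hR : 0 ≤ 2 * R₀ + RA := by linarith
  have hN : (0 : ℝ) ≤ (bigs Gm univ km).card / mg := by positivity
  set N : ℝ := (bigs Gm univ km).card / mg with hNdef
  set E := (2 * R₀ + RA) * Dir c f with hEdef
  have hE0 : 0 ≤ E := mul_nonneg hR hE
  have hab : (0 : ℝ) ≤ ab := Nat.cast_nonneg _
  have e1 : 8 * (ab : ℝ) * (ab + 1) * (2 * R₀ + RA) * Dir c f = 8 * ab * (ab + 1) * E := by
    rw [hEdef]; ring
  have e2 : 4 * (2 * R₀ + RA) * Dir c f = 4 * E := by rw [hEdef]; ring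
  have e3 : 50 * ((ab : ℝ) + 1) ^ 2 * (2 * R₀ + RA) * (N + 1) * Dir c f =
      50 * (ab + 1) ^ 2 * (N + 1) * E := by rw [hEdef]; ring
  rw [e1, e2, e3]
  have h1 : 0 ≤ N * E := mul_nonneg hN hE0
  have h2 : 0 ≤ (ab : ℝ) * E := mul_nonneg hab hE0
  have h3 : 0 ≤ (ab : ℝ) * (N * E) := mul_nonneg hab h1
  have h4 : 0 ≤ (ab : ℝ) * (ab * E) := mul_nonneg hab h2
  have h5 : 0 ≤ (ab : ℝ) * (ab * (N * E)) := mul_nonneg hab h3
  nlinarith

end RST.I
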