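import Pool.Agent.Lib.MP_7946c7_pr.I.CF
import Pool.Agent.Lib.MP_7946c7_pr.I.Walk

/-!
# Energies of components
-/

open Finset

set_option linter.unusedSectionVars false

namespace RST.I

variable {V : Type} [Fintype V]

theorem sqd_mk9 (f : V → ℝ) (x y : V) : sqd f s(x, y) = (f x - f y) ^ 2 := rfl

theorem sqd_nonneg9 (f : V → ℝ) (e : Sym2 V) : 0 ≤ sqd f e := by
  induction e using Sym2.ind with
  | _ x y => rw [sqd_mk9]; positivity

open Classical in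
/-- Energy of the edges with both endpoints in `Q`. -/
noncomputable def En9 (c : Sym2 V → ℝ) (f : V → ℝ) (Q : Finset V) : ℝ :=
  ∑ e : Sym2 V, if ∀ x ∈ e, x ∈ Q then c e * sqd f e else 0

theorem term_nonneg9 {c : Sym2 V → ℝ} (hc : ∀ e, 0 < c e) (f : V → ℝ) (e : Sym2 V) :
    0 ≤ c e * sqd f e := mul_nonneg (hc e).le (sqd_nonneg9 f e)

theorem En_nonneg9 {c : Sym2 V → ℝ} (hc : ∀ e, 0 < c e) (f : V → ℝ) (Q : Finset V) :
    0 ≤ En9 c f Q := by
  classical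
  refine sum_nonneg fun e _ => ?_
  split_ifs
  · exact term_nonneg9 hc f e
  · exact le_rfl

theorem Dir_nonneg9 {c : Sym2 V → ℝ} (hc : ∀ e, 0 < c e) (f : V → ℝ) : 0 ≤ Dir c f :=
  sum_nonneg fun e _ => term_nonneg9 hc f e

/-- Cauchy-Schwarz along a walk. -/
theorem path_cs9 {c : Sym2 V → ℝ} (hc : ∀ e, 0 < c e) (f : V → ℝ) (γ : ℕ → V) (ℓ : ℕ) :
    (f (γ 0) - f (γ ℓ)) ^ 2 ≤ (∑ i ∈ range ℓ, 1 / c s(γ i, γ (i + 1))) *
      ∑ i ∈ range ℓ, c s(γ i, γ (i + 1)) * sqd f s(γ i, γ (i + 1)) := by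
  have h1 : f (γ 0) - f (γ ℓ) = ∑ i ∈ range ℓ, (f (γ i) - f (γ (i + 1))) := by
    have := Finset.sum_range_sub (fun i => f (γ i)) ℓ
    have e : ∑ i ∈ range ℓ, (f (γ i) - f (γ (i + 1))) =
        - ∑ i ∈ range ℓ, (f (γ (i + 1)) - f (γ i)) := by
      rw [← sum_neg_distrib]
      exact sum_congr rfl fun i _ => by ring
    rw [e, this]
    ring
  rw [h1]
  refine sum_sq_le_sum_mul_sum_of_sq_le_mul _ (fun i _ => ?_) (fun i _ => ?_) fun i _ => ?_
  · exact (one_div_pos.2 (hc _)).le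
  · exact term_nonneg9 hc f _
  · rw [sqd_mk9]
    have := (hc s(γ i, γ (i + 1))).ne'
    apply le_of_eq
    field_simp

/-- The energy along a self-avoiding walk inside `Q` is at most the energy of `Q`. -/
theorem path_En9 {R : V → V → Prop} {c : Sym2 V → ℝ} (hc : ∀ e, 0 < c e) (f : V → ℝ)
    (γ : ℕ → V) (ℓ : ℕ) (hγ : IsSAW R γ ℓ) (Q : Finset V) (hQ : ∀ i ≤ ℓ, γ i ∈ Q) :
    ∑ i ∈ range ℓ, c s(γ i, γ (i + 1)) * sqd f s(γ i, γ (i + 1)) ≤ En9 c f Q := by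
  classical
  have hinj : Set.InjOn (fun i => s(γ i, γ (i + 1))) (range ℓ : Finset ℕ) := by
    intro i hi j hj h
    simp only [coe_range, Set.mem_Iio] at hi hj
    simp only [Sym2.eq_iff] at h
    rcases h with ⟨h, _⟩ | ⟨h, h'⟩
    · exact hγ.2 i (by omega) j (by omega) h
    · have e1 := hγ.2 i (by omega) (j + 1) (by omega) h
      have e2 := hγ.2 (i + 1) (by omega) j (by omega) h'
      omega
  rw [← sum_image (f := fun e => c e * sqd f e) hinj, En9, ← sum_filter]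
  refine sum_le_sum_of_subset_of_nonneg (fun e he => ?_) fun e _ _ => term_nonneg9 hc f e
  obtain ⟨i, hi, rfl⟩ := mem_image.1 he
  rw [mem_range] at hi
  rw [mem_filter]
  refine ⟨mem_univ _, fun x hx => ?_⟩
  rcases Sym2.mem_iff.1 hx with rfl | rfl
  · exact hQ i (by omega)
  · exact hQ (i + 1) (by omega)

/-- Energy estimate inside a component. -/
theorem inside_En9 {Gm GA : V → V → Prop} {c : Sym2 V → ℝ} {R₀ RA : ℝ}
    (hC : CFacts Gm GA c R₀ RA) (f : V → ℝ) (u v : V) (h : v ∈ cmp Gm univ u) :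
    (f u - f v) ^ 2 ≤ R₀ * En9 c f (cmp Gm univ u) := by
  obtain ⟨γ, ℓ, h0, hl, hγ, hR⟩ := hC.inside u v h
  have h1 := path_cs9 hC.pos f γ ℓ
  rw [h0, hl] at h1
  refine h1.trans ?_
  have h2 := path_En9 hC.pos f γ ℓ hγ (cmp Gm univ u) fun i hi => by
    have := saw_mem_cmp hγ i hi
    rwa [h0] at this
  have h3 : 0 ≤ ∑ i ∈ range ℓ, c s(γ i, γ (i + 1)) * sqd f s(γ i, γ (i + 1)) :=
    sum_nonneg fun i _ => term_nonneg9 hC.pos f _
  calc _ ≤ R₀ * ∑ i ∈ range ℓ, c s(γ i, γ (i + 1)) * sqd f s(γ i, γ (i + 1)) :=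
        mul_le_mul_of_nonneg_right hR h3
    _ ≤ _ := by
        refine mul_le_mul_of_nonneg_left h2 ?_
        refine le_trans (sum_nonneg fun i _ => ?_) hR
        exact (one_div_pos.2 (hC.pos _)).le

theorem three_cs9 (a₁ a₂ a₃ r₁ r₂ r₃ e₁ e₂ e₃ : ℝ) (hr₁ : 0 ≤ r₁) (hr₂ : 0 ≤ r₂) (hr₃ : 0 ≤ r₃)
    (he₁ : 0 ≤ e₁) (he₂ : 0 ≤ e₂) (he₃ : 0 ≤ e₃) (h₁ : a₁ ^ 2 ≤ r₁ * e₁) (h₂ : a₂ ^ 2 ≤ r₂ * e₂)
    (h₃ : a₃ ^ 2 ≤ r₃ * e₃) : (a₁ + a₂ + a₃) ^ 2 ≤ (r₁ + r₂ + r₃) * (e₁ + e₂ + e₃) := by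
  have key := sum_sq_le_sum_mul_sum_of_sq_le_mul (univ : Finset (Fin 3))
    (r := ![a₁, a₂, a₃]) (f := ![r₁, r₂, r₃]) (g := ![e₁, e₂, e₃])
    (fun i _ => by fin_cases i <;> simp [hr₁, hr₂, hr₃])
    (fun i _ => by fin_cases i <;> simp [he₁, he₂, he₃])
    (fun i _ => by fin_cases i <;> simp [h₁, h₂, h₃])
  simpa [Fin.sum_univ_three] using key

/-- Three-term estimate: component, edge, component. -/
theorem step_En9 {Gm GA : V → V → Prop} (hm : ∀ u v, Gm u v → Gm v u) {c : Sym2 V → ℝ} {R₀ RA : ℝ}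
    (hC : CFacts Gm GA c R₀ RA) (hR₀ : 0 ≤ R₀) (hRA : 0 ≤ RA) (f : V → ℝ) (z u w x : V)
    (hu : u ∈ cmp Gm univ z) (hx : x ∈ cmp Gm univ w) (huw : GA u w) :
    (f z - f x) ^ 2 ≤ (2 * R₀ + RA) *
      (En9 c f (cmp Gm univ z) + c s(u, w) * sqd f s(u, w) + En9 c f (cmp Gm univ w)) := by
  have h1 := inside_En9 hC f z u hu
  have h2 := inside_En9 hC f w x hx
  have hc := hC.pos s(u, w)
  have h3 : (f u - f w) ^ 2 ≤ RA * (c s(u, w) * sqd f s(u, w)) := by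
    rw [sqd_mk9]
    have h4 := hC.edge u w huw
    rw [div_le_iff₀ hc] at h4
    have h5 : 0 ≤ (f u - f w) ^ 2 := by positivity
    nlinarith
  have hE1 := En_nonneg9 hC.pos f (cmp Gm univ z)
  have hE2 := En_nonneg9 hC.pos f (cmp Gm univ w)
  have hE3 := term_nonneg9 hC.pos f s(u, w)
  have key := three_cs9 (f z - f u) (f u - f w) (f w - f x) R₀ RA R₀ _ _ _ hR₀ hRA hR₀ hE1 hE3
    hE2 h1 h3 h2
  calc (f z - f x) ^ 2 = ((f z - f u) + (f u - f w) + (f w - f x)) ^ 2 := by ring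
    _ ≤ _ := key
    _ = _ := by ring

/-- The energies of distinct components add up to at most the total energy. -/
theorem sum_En_le9 {Gm : V → V → Prop} (hm : ∀ u v, Gm u v → Gm v u) {c : Sym2 V → ℝ}
    (hc : ∀ e, 0 < c e) (f : V → ℝ) {ι : Type} (D : Finset ι) (z : ι → V)
    (hz : ∀ s ∈ D, ∀ s' ∈ D, s ≠ s' → cmp Gm univ (z s) ≠ cmp Gm univ (z s')) :
    ∑ s ∈ D, En9 c f (cmp Gm univ (z s)) ≤ Dir c f := by
  classical
  unfold En9 Dir
  rw [sum_comm]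
  refine sum_le_sum fun e _ => ?_
  induction e using Sym2.ind with
  | _ x y =>
    by_cases h : ∃ s ∈ D, x ∈ cmp Gm univ (z s)
    · obtain ⟨s, hs, hxs⟩ := h
      rw [sum_eq_single s]
      · split_ifs
        · exact le_rfl
        · exact term_nonneg9 hc f _
      · intro s' hs' hne
        rw [if_neg]
        intro h
        have h1 := h x (Sym2.mem_mk_left x y)
        exact hz s' hs' s hs hne ((cmp_eq hm h1).symm.trans (cmp_eq hm hxs))
      · exact fun h => absurd hs h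
    · rw [sum_eq_zero]
      · exact term_nonneg9 hc f _
      · intro s hs
        rw [if_neg]
        intro h'
        exact h ⟨s, hs, h' x (Sym2.mem_mk_left x y)⟩

/-- A family of edges, each value taken at most twice. -/
theorem sum_edge_le9 {c : Sym2 V → ℝ} (hc : ∀ e, 0 < c e) (f : V → ℝ) {ι : Type}
    (D : Finset ι) (E : ι → Sym2 V)
    (hE : ∀ e, (open Classical in (D.filter fun s => E s = e).card) ≤ 2) :
    ∑ s ∈ D, c (E s) * sqd f (E s) ≤ 2 * Dir c f := by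
  classical
  rw [← sum_fiberwise_of_maps_to (s := D) (t := univ) (g := E) (fun _ _ => mem_univ _), Dir,
    mul_sum]
  refine sum_le_sum fun e _ => ?_
  rw [sum_congr rfl fun s hs => by rw [(mem_filter.1 hs).2], sum_const, nsmul_eq_mul]
  have := hE e
  have h2 : ((D.filter fun s => E s = e).card : ℝ) ≤ 2 := by exact_mod_cast this
  exact mul_le_mul_of_nonneg_right h2 (term_nonneg9 hc f e)

end RST.I
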