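import Pool.Agent.Lib.MP_7946c7_pr.I.CF
import Pool.Agent.Lib.MP_7946c7_pr.I.Walk

/-!
# Stream I: energies inside components, resistances
-/

open Finset

namespace RST.I

theorem en_mem_filter {α : Type*} {p : α → Prop} {inst : DecidablePred p} {s : Finset α}
    {a : α} : a ∈ @Finset.filter α p inst s ↔ a ∈ s ∧ p a := by
  simp

theorem en_edge_ne {V : Type*} {R : V → V → Prop} {γ : ℕ → V} {ℓ : ℕ} (hγ : IsSAW R γ ℓ)
    {s t : ℕ} (hs : s < ℓ) (ht : t < ℓ) (hst : s ≠ t) : s(γ s, γ (s + 1)) ≠ s(γ t, γ (t + 1)) := by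
  intro h
  rcases Sym2.eq_iff.1 h with ⟨h1, h2⟩ | ⟨h1, h2⟩
  · exact hst (hγ.2 _ (by omega) _ (by omega) h1)
  · have e1 := hγ.2 _ (by omega) _ (by omega) h1
    have e2 := hγ.2 _ (by omega) _ (by omega) h2
    omega

/-! ## Resistances -/

theorem sqd_mk {V : Type*} (f : V → ℝ) (x y : V) : sqd f s(x, y) = (f x - f y) ^ 2 := rfl

theorem sqd_nonneg {V : Type*} (f : V → ℝ) (e : Sym2 V) : 0 ≤ sqd f e := by
  induction e using Sym2.ind with
  | _ x y => rw [sqd_mk]; positivity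

/-- Cauchy-Schwarz along a path. -/
theorem path_resist {V : Type*} (c : Sym2 V → ℝ) (hc : ∀ e, 0 < c e) (f : V → ℝ) (γ : ℕ → V)
    (ℓ : ℕ) : (f (γ 0) - f (γ ℓ)) ^ 2 ≤ (∑ i ∈ range ℓ, 1 / c s(γ i, γ (i + 1))) *
      ∑ i ∈ range ℓ, c s(γ i, γ (i + 1)) * sqd f s(γ i, γ (i + 1)) := by
  have h : f (γ 0) - f (γ ℓ) = ∑ i ∈ range ℓ, (f (γ i) - f (γ (i + 1))) := by
    rw [Finset.sum_range_sub']
  rw [h]
  refine Finset.sum_sq_le_sum_mul_sum_of_sq_le_mul _ (fun i _ => ?_) (fun i _ => ?_) (fun i _ => ?_)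
  · exact (one_div_pos.2 (hc _)).le
  · exact mul_nonneg (hc _).le (sqd_nonneg _ _)
  · rw [sqd_mk]
    have := (hc s(γ i, γ (i + 1))).ne'
    field_simp
    exact le_rfl

open Classical in
/-- Edges inside `P`. -/
noncomputable def eIn {V : Type} [Fintype V] (P : Finset V) : Finset (Sym2 V) :=
  univ.filter fun e => ∀ x ∈ e, x ∈ P

/-- Energy inside `P`. -/
noncomputable def En {V : Type} [Fintype V] (c : Sym2 V → ℝ) (f : V → ℝ) (P : Finset V) : ℝ :=
  ∑ e ∈ eIn P, c e * sqd f e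

theorem mem_eIn {V : Type} [Fintype V] {P : Finset V} {x y : V} :
    s(x, y) ∈ eIn P ↔ x ∈ P ∧ y ∈ P := by
  unfold eIn
  rw [en_mem_filter]
  simp

theorem En_nonneg {V : Type} [Fintype V] {c : Sym2 V → ℝ} (hc : ∀ e, 0 < c e) (f : V → ℝ)
    (P : Finset V) : 0 ≤ En c f P :=
  Finset.sum_nonneg fun e _ => mul_nonneg (hc e).le (sqd_nonneg f e)

theorem Dir_nonneg {V : Type} [Fintype V] {c : Sym2 V → ℝ} (hc : ∀ e, 0 < c e) (f : V → ℝ) :
    0 ≤ Dir c f :=
  Finset.sum_nonneg fun e _ => mul_nonneg (hc e).le (sqd_nonneg f e)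

/-- The energies of pairwise disjoint sets of vertices add up to at most the Dirichlet energy. -/
theorem sum_En_le {V : Type} [Fintype V] {c : Sym2 V → ℝ} (hc : ∀ e, 0 < c e) (f : V → ℝ)
    {ι : Type} (S : Finset ι) (P : ι → Finset V)
    (hP : ∀ i ∈ S, ∀ j ∈ S, i ≠ j → Disjoint (P i) (P j)) :
    ∑ i ∈ S, En c f (P i) ≤ Dir c f := by
  classical
  unfold En
  rw [← Finset.sum_biUnion]
  · unfold Dir
    exact Finset.sum_le_sum_of_subset_of_nonneg (Finset.subset_univ _)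
      fun e _ _ => mul_nonneg (hc e).le (sqd_nonneg f e)
  · intro i hi j hj hij
    have hd := hP i hi j hj hij
    rw [Function.onFun, Finset.disjoint_left]
    intro e he he'
    induction e using Sym2.ind with
    | _ x y =>
      rw [mem_eIn] at he he'
      exact (Finset.disjoint_left.1 hd) he.1 he'.1

/-- A sum along the edges of a self-avoiding walk inside `P`. -/
theorem walk_energy_le {V : Type} [Fintype V] {c : Sym2 V → ℝ} (hc : ∀ e, 0 < c e) (f : V → ℝ)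
    {R : V → V → Prop} {γ : ℕ → V} {ℓ : ℕ} (hγ : IsSAW R γ ℓ) (P : Finset V)
    (hP : ∀ i ≤ ℓ, γ i ∈ P) :
    ∑ i ∈ range ℓ, c s(γ i, γ (i + 1)) * sqd f s(γ i, γ (i + 1)) ≤ En c f P := by
  classical
  unfold En
  have himg : ∑ i ∈ range ℓ, c s(γ i, γ (i + 1)) * sqd f s(γ i, γ (i + 1)) =
      ∑ e ∈ (range ℓ).image (fun i => s(γ i, γ (i + 1))), c e * sqd f e := by
    rw [Finset.sum_image]
    intro i hi j hj hij
    by_contra hne
    simp only [Finset.coe_range, Set.mem_Iio] at hi hj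
    exact en_edge_ne hγ hi hj hne hij
  rw [himg]
  refine Finset.sum_le_sum_of_subset_of_nonneg ?_
    fun e _ _ => mul_nonneg (hc e).le (sqd_nonneg f e)
  intro e he
  obtain ⟨i, hi, rfl⟩ := Finset.mem_image.1 he
  rw [Finset.mem_range] at hi
  exact mem_eIn.2 ⟨hP i (by omega), hP (i + 1) (by omega)⟩

/-- Two vertices of the same component. -/
theorem same_resist {V : Type} [Fintype V] {Gm GA : V → V → Prop} {c : Sym2 V → ℝ} {R₀ RA : ℝ}
    (hC : CFacts Gm GA c R₀ RA) (f : V → ℝ) {u v : V}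
    (h : v ∈ cmp Gm univ u) : (f u - f v) ^ 2 ≤ R₀ * En c f (cmp Gm univ u) := by
  obtain ⟨γ, ℓ, h0, hl, hγ, hR⟩ := hC.inside u v h
  have h1 := path_resist c hC.pos f γ ℓ
  rw [h0, hl] at h1
  have hin : ∀ i ≤ ℓ, γ i ∈ cmp Gm univ u := by
    intro i hi
    rw [← h0]
    exact saw_mem_cmp hγ i hi
  have h2 := walk_energy_le hC.pos f hγ _ hin
  have h3 : 0 ≤ ∑ i ∈ range ℓ, 1 / c s(γ i, γ (i + 1)) :=
    Finset.sum_nonneg fun i _ => (one_div_pos.2 (hC.pos _)).le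
  refine h1.trans ?_
  exact mul_le_mul hR h2 (Finset.sum_nonneg fun i _ => mul_nonneg (hC.pos _).le (sqd_nonneg _ _))
    (h3.trans hR)

/-- An edge of `GA`. -/
theorem edge_resist {V : Type} [Fintype V] {Gm GA : V → V → Prop} {c : Sym2 V → ℝ} {R₀ RA : ℝ}
    (hC : CFacts Gm GA c R₀ RA) (f : V → ℝ) {u v : V}
    (h : GA u v) : (f u - f v) ^ 2 ≤ RA * (c s(u, v) * sqd f s(u, v)) := by
  have h1 := hC.edge u v h
  have h2 := hC.pos s(u, v)
  rw [sqd_mk]
  have h3 : (f u - f v) ^ 2 = 1 / c s(u, v) * (c s(u, v) * (f u - f v) ^ 2) := by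
    field_simp
  calc (f u - f v) ^ 2 = 1 / c s(u, v) * (c s(u, v) * (f u - f v) ^ 2) := h3
    _ ≤ RA * (c s(u, v) * (f u - f v) ^ 2) :=
      mul_le_mul_of_nonneg_right h1 (mul_nonneg h2.le (sq_nonneg _))

theorem two_mul_le_of_sq {x y a b A B : ℝ} (ha : 0 ≤ a) (hb : 0 ≤ b) (hA : 0 ≤ A) (hB : 0 ≤ B)
    (hx : x ^ 2 ≤ a * A) (hy : y ^ 2 ≤ b * B) : 2 * (x * y) ≤ a * B + b * A := by
  have h1 : (2 * (x * y)) ^ 2 ≤ (a * B + b * A) ^ 2 := by
    have h2 : x ^ 2 * y ^ 2 ≤ (a * A) * (b * B) :=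
      mul_le_mul hx hy (sq_nonneg _) (mul_nonneg ha hA)
    nlinarith [sq_nonneg (a * B - b * A)]
  exact le_trans (le_abs_self _) (abs_le_of_sq_le_sq h1 (by positivity))

/-- Series law for three resistances. -/
theorem three_resist {x y z a b d A B D : ℝ} (ha : 0 ≤ a) (hb : 0 ≤ b) (hd : 0 ≤ d) (hA : 0 ≤ A)
    (hB : 0 ≤ B) (hD : 0 ≤ D) (hx : x ^ 2 ≤ a * A) (hy : y ^ 2 ≤ b * B) (hz : z ^ 2 ≤ d * D) :
    (x + y + z) ^ 2 ≤ (a + b + d) * (A + B + D) := by
  have h1 := two_mul_le_of_sq ha hb hA hB hx hy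
  have h2 := two_mul_le_of_sq ha hd hA hD hx hz
  have h3 := two_mul_le_of_sq hb hd hB hD hy hz
  nlinarith

/-- Resistance between a vertex `z` and a vertex `r` through an edge `u w` of `GA` with `u` in the
component of `z` and `w` in the component of `r`. -/
theorem conn_resist {V : Type} [Fintype V] {Gm GA : V → V → Prop} {c : Sym2 V → ℝ} {R₀ RA : ℝ}
    (hC : CFacts Gm GA c R₀ RA) (hR₀ : 0 ≤ R₀) (hRA : 0 ≤ RA)
    (f : V → ℝ) {z r u w : V} (hu : u ∈ cmp Gm univ z) (hw : w ∈ cmp Gm univ r) (huw : GA u w) :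
    (f z - f r) ^ 2 ≤ (2 * R₀ + RA) *
      (En c f (cmp Gm univ z) + c s(u, w) * sqd f s(u, w) + En c f (cmp Gm univ r)) := by
  have h1 := same_resist hC f hu
  have h2 := edge_resist hC f huw
  have h3 := same_resist hC f hw
  have h3' : (f w - f r) ^ 2 ≤ R₀ * En c f (cmp Gm univ r) := by
    have : (f w - f r) ^ 2 = (f r - f w) ^ 2 := by ring
    rw [this]; exact h3
  have h4 := three_resist hR₀ hRA hR₀ (En_nonneg hC.pos f _)
    (mul_nonneg (hC.pos s(u, w)).le (sqd_nonneg f _)) (En_nonneg hC.pos f _) h1 h2 h3'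
  have e1 : f z - f u + (f u - f w) + (f w - f r) = f z - f r := by ring
  have e2 : R₀ + RA + R₀ = 2 * R₀ + RA := by ring
  rw [e1, e2] at h4
  exact h4

/-- Sum over ordered pairs. -/
theorem sum_pairs_le {V : Type} [Fintype V] (g : Sym2 V → ℝ) (hg : ∀ e, 0 ≤ g e)
    (S : Finset (V × V)) : ∑ p ∈ S, g s(p.1, p.2) ≤ 2 * ∑ e, g e := by
  classical
  calc ∑ p ∈ S, g s(p.1, p.2) ≤ ∑ p : V × V, g s(p.1, p.2) :=
        Finset.sum_le_sum_of_subset_of_nonneg (Finset.subset_univ _) fun p _ _ => hg _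
    _ = ∑ e : Sym2 V, ∑ p ∈ univ.filter (fun p : V × V => s(p.1, p.2) = e), g s(p.1, p.2) := by
        rw [Finset.sum_fiberwise]
    _ ≤ ∑ e : Sym2 V, 2 * g e := by
        refine Finset.sum_le_sum fun e _ => ?_
        have h1 : ∑ p ∈ univ.filter (fun p : V × V => s(p.1, p.2) = e), g s(p.1, p.2) =
            ∑ p ∈ univ.filter (fun p : V × V => s(p.1, p.2) = e), g e := by
          refine Finset.sum_congr rfl fun p hp => ?_
          rw [(Finset.mem_filter.1 hp).2]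
        rw [h1, Finset.sum_const, nsmul_eq_mul]
        refine mul_le_mul_of_nonneg_right ?_ (hg e)
        induction e using Sym2.ind with
        | _ a b =>
          have hsub : univ.filter (fun p : V × V => s(p.1, p.2) = s(a, b)) ⊆
              ({(a, b), (b, a)} : Finset (V × V)) := by
            intro p hp
            have := (Finset.mem_filter.1 hp).2
            rcases Sym2.eq_iff.1 this with ⟨h, h'⟩ | ⟨h, h'⟩
            · simp [Prod.ext_iff, h, h']
            · simp [Prod.ext_iff, h, h']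
          have h2 := (Finset.card_le_card hsub).trans Finset.card_le_two
          exact_mod_cast h2
    _ = 2 * ∑ e, g e := by rw [Finset.mul_sum]

end RST.I
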