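import Pool.Agent.Lib.MP_7946c7_pr.I.Low

/-!
# EXC: number of well separated visits of a component
-/

open Finset

set_option linter.unusedSectionVars false

namespace RST.I

variable {V : Type} [Fintype V]

/-- One excursion. -/
theorem exc_step (Gm GA GW : V → V → Prop) (km lmax r' r'' k₀ lm ab eb : ℕ)
    (F : DFacts Gm GA GW km lmax r' r'' k₀ lm ab eb) (hr : r'' = r' / 2) (hr' : 2 ≤ r')
    (hlm : 2 * k₀ + 4 ≤ lm) (γ : ℕ → V) (M₀ : ℕ) (hγ : IsSAW GW γ M₀) (v : V) (p p' : ℕ)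
    (hp : γ p ∈ cmp Gm univ v) (hp' : γ p' ∈ cmp Gm univ v) (hpM : p' ≤ M₀)
    (hgap : p + lmax ≤ p') (hlt : p < p') :
    (∃ t, p ≤ t ∧ t < p' ∧ s(γ t, γ (t + 1)) ∈ Ecyc Gm GW lm) ∨
      ∃ a, p ≤ a ∧ a + 1 + r'' < p' ∧ γ a ∈ cmp Gm univ v ∧
        ∀ i ≤ r'', γ (a + 1 + i) ∉ cmp Gm univ v := by
  classical
  have hmL : ∀ u v, Gm u v → GW u v := fun u v h => F.le_L u v (F.le_A u v h)
  have hw : ∃ t, p ≤ t ∧ t < p' ∧ ¬ Gm (γ t) (γ (t + 1)) := by
    by_contra hcon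
    have hs : IsSAW Gm (fun k => γ (p + k)) (p' - p) := by
      refine ⟨fun k hk => ?_, fun k hk k' hk' h => ?_⟩
      · by_contra hG
        exact hcon ⟨p + k, by omega, by omega, hG⟩
      · have := hγ.2 (p + k) (by omega) (p + k') (by omega) h
        omega
    have := F.d1 _ _ hs
    omega
  obtain ⟨h1, h2, h3⟩ := Nat.find_spec hw
  have hmin : ∀ u, p ≤ u → u < Nat.find hw → Gm (γ u) (γ (u + 1)) := fun u hu hu' => by
    by_contra hG
    exact Nat.find_min hw hu' ⟨hu, by omega, hG⟩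
  generalize Nat.find hw = t at h1 h2 h3 hmin
  have htQ : γ t ∈ cmp Gm univ v :=
    mem_cmp.2 (rch_trans (mem_cmp.1 hp) (rch_walk γ p t h1 fun k hk hk' => hmin k hk hk'))
  have hsame : ∀ i j, γ i ∈ cmp Gm univ v → γ j ∈ cmp Gm univ v → γ j ∈ cmp Gm univ (γ i) :=
    fun i j hi hj => mem_cmp.2 (rch_trans (rch_symm F.symm_m (mem_cmp.1 hi)) (mem_cmp.1 hj))
  have hret : ∃ s', t < s' ∧ s' ≤ p' ∧ γ s' ∈ cmp Gm univ v := ⟨p', h2, le_rfl, hp'⟩
  obtain ⟨g1, g2, g3⟩ := Nat.find_spec hret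
  have gmin : ∀ u, t < u → u < Nat.find hret → γ u ∉ cmp Gm univ v := fun u hu hu' hG =>
    Nat.find_min hret hu' ⟨hu, by omega, hG⟩
  generalize Nat.find hret = s' at g1 g2 g3 gmin
  by_cases hs : s' - t ≤ r'
  · left
    have hc := d3_Ico F.d3 hγ t (s' - t) (by omega) hs
    have e : t + (s' - t) = s' := by omega
    rw [e] at hc
    obtain ⟨x, hx1, hx2, _, hx4⟩ := lemmaZ Gm GW F.symm_m F.symm_L hmL lm γ M₀ hγ t s' g1
      (by omega) (hsame _ _ htQ g3) ⟨t, le_rfl, g1, h3⟩ (by omega)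
    exact ⟨x, by omega, by omega, hx4⟩
  · right
    refine ⟨t, h1, by omega, htQ, fun i hi => gmin _ (by omega) (by omega)⟩

/-- EXC. Positions of a walk of `GW` in one component of `Gm`, any two of them at distance at least
`lmax`: at most `ab + eb + 1`. -/
theorem exc_count (Gm GA GW : V → V → Prop) (km lmax r' r'' k₀ lm ab eb : ℕ)
    (F : DFacts Gm GA GW km lmax r' r'' k₀ lm ab eb) (hr : r'' = r' / 2) (hr' : 2 ≤ r')
    (hlm : 2 * k₀ + 4 ≤ lm) (γ : ℕ → V) (M₀ : ℕ) (hγ : IsSAW GW γ M₀) (v : V) (P : Finset ℕ)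
    (hP : ∀ p ∈ P, p ≤ M₀ ∧ γ p ∈ cmp Gm univ v)
    (hgap : ∀ p ∈ P, ∀ p' ∈ P, p < p' → p + lmax ≤ p') : P.card ≤ ab + eb + 1 := by
  classical
  rcases P.eq_empty_or_nonempty with rfl | hne
  · simp
  set top := P.max' hne with htop
  have htopP : top ∈ P := P.max'_mem hne
  -- the next element
  have hnext : ∀ p ∈ P.erase top, ∃ p' ∈ P, p < p' ∧ ∀ x ∈ P, p < x → p' ≤ x := fun p hp => by
    have hlt : p < top := lt_of_le_of_ne (P.le_max' p (mem_of_mem_erase hp)) (ne_of_mem_erase hp)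
    obtain ⟨p', hp', hmin⟩ := exists_min_image (P.filter fun x => p < x) id
      ⟨top, by simp [htopP, hlt]⟩
    rw [mem_filter] at hp'
    exact ⟨p', hp'.1, hp'.2, fun x hx hx' => hmin x (by simp [hx, hx'])⟩
  have hstep : ∀ p ∈ P.erase top,
      (∃ t, p ≤ t ∧ (∀ x ∈ P, p < x → t < x) ∧ t < M₀ ∧ s(γ t, γ (t + 1)) ∈ Ecyc Gm GW lm) ∨
      ∃ a, p ≤ a ∧ (∀ x ∈ P, p < x → a + 1 + r'' < x) ∧ a + 1 + r'' < M₀ ∧
        γ a ∈ cmp Gm univ v ∧ ∀ i ≤ r'', γ (a + 1 + i) ∉ cmp Gm univ v := fun p hp => by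
    obtain ⟨p', hp', hlt, hmin⟩ := hnext p hp
    have hpP := mem_of_mem_erase hp
    have hp'M := (hP p' hp').1
    rcases exc_step Gm GA GW km lmax r' r'' k₀ lm ab eb F hr hr' hlm γ M₀ hγ v p p'
      (hP p hpP).2 (hP p' hp').2 hp'M (hgap p hpP p' hp' hlt) hlt with
      ⟨t, h1, h2, h3⟩ | ⟨a, h1, h2, h3, h4⟩
    · exact Or.inl ⟨t, h1, fun x hx hx' => lt_of_lt_of_le h2 (hmin x hx hx'), by omega, h3⟩
    · exact Or.inr ⟨a, h1, fun x hx hx' => lt_of_lt_of_le h2 (hmin x hx hx'), by omega, h3, h4⟩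
  have hinj : ∀ p p', p ≤ M₀ → p' ≤ M₀ → γ p = γ p' → p = p' := fun p p' h1 h2 h =>
    hγ.2 p h1 p' h2 h
  set PE := (P.erase top).filter fun p =>
    ∃ t, p ≤ t ∧ (∀ x ∈ P, p < x → t < x) ∧ t < M₀ ∧ s(γ t, γ (t + 1)) ∈ Ecyc Gm GW lm with hPE
  set PA := (P.erase top).filter fun p =>
    ∃ a, p ≤ a ∧ (∀ x ∈ P, p < x → a + 1 + r'' < x) ∧ a + 1 + r'' < M₀ ∧
        γ a ∈ cmp Gm univ v ∧ ∀ i ≤ r'', γ (a + 1 + i) ∉ cmp Gm univ v with hPA
  have hcover : P.erase top ⊆ PE ∪ PA := fun p hp => by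
    rw [mem_union, hPE, hPA, mem_filter, mem_filter]
    rcases hstep p hp with h | h
    · exact Or.inl ⟨hp, h⟩
    · exact Or.inr ⟨hp, h⟩
  -- edges
  have hPEc : PE.card ≤ eb := by
    have hch : ∀ p : ℕ, ∃ t, p ∈ PE → p ≤ t ∧ (∀ x ∈ P, p < x → t < x) ∧ t < M₀ ∧
        s(γ t, γ (t + 1)) ∈ Ecyc Gm GW lm := fun p => by
      by_cases hp : p ∈ PE
      · obtain ⟨t, ht⟩ := (mem_filter.1 hp).2
        exact ⟨t, fun _ => ht⟩
      · exact ⟨0, fun h => absurd h hp⟩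
    choose T hT using hch
    refine le_trans (card_le_card_of_injOn (fun p => s(γ (T p), γ (T p + 1))) (fun p hp => ?_)
      fun p hp p' hp' h => ?_) F.d7
    · exact (hT p hp).2.2.2
    · have h1 := hT p hp
      have h2 := hT p' hp'
      have hpP : p ∈ P := mem_of_mem_erase (mem_filter.1 hp).1
      have hpP' : p' ∈ P := mem_of_mem_erase (mem_filter.1 hp').1
      have hTT : T p = T p' := by
        simp only [Sym2.eq_iff] at h
        rcases h with ⟨h, _⟩ | ⟨h, h'⟩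
        · exact hinj _ _ (by omega) (by omega) h
        · have e1 := hinj _ _ (by omega) (by omega) h
          have e2 := hinj _ _ (by omega) (by omega) h'
          omega
      rcases lt_trichotomy p p' with h3 | h3 | h3
      · have := h1.2.1 p' hpP' h3
        omega
      · exact h3
      · have := h2.2.1 p hpP h3
        omega
  -- arms
  have hPAc : PA.card ≤ ab := by
    have hch : ∀ p : ℕ, ∃ a, p ∈ PA → p ≤ a ∧ (∀ x ∈ P, p < x → a + 1 + r'' < x) ∧
        a + 1 + r'' < M₀ ∧ γ a ∈ cmp Gm univ v ∧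
          ∀ i ≤ r'', γ (a + 1 + i) ∉ cmp Gm univ v := fun p => by
      by_cases hp : p ∈ PA
      · obtain ⟨t, ht⟩ := (mem_filter.1 hp).2
        exact ⟨t, fun _ => ht⟩
      · exact ⟨0, fun h => absurd h hp⟩
    choose A hA using hch
    have hsep : ∀ p ∈ PA, ∀ p' ∈ PA, p < p' → A p + 1 + r'' < A p' := fun p hp p' hp' h => by
      have hpP' : p' ∈ P := mem_of_mem_erase (mem_filter.1 hp').1
      have h1 := (hA p hp).2.1 p' hpP' h
      have h2 := (hA p' hp').1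
      omega
    have hinjA : Set.InjOn (fun p => γ (A p + 1)) PA := fun p hp p' hp' h => by
      have h1 := hA p hp
      have h2 := hA p' hp'
      have e := hinj _ _ (by omega) (by omega) h
      rcases lt_trichotomy p p' with h3 | h3 | h3
      · have := hsep p hp p' hp' h3
        omega
      · exact h3
      · have := hsep p' hp' p hp h3
        omega
    rw [← card_image_of_injOn hinjA]
    refine F.d4 v _ (fun w hw => ?_) ?_
    · obtain ⟨p, hp, rfl⟩ := mem_image.1 hw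
      obtain ⟨_, _, h3, h4, h5⟩ := hA p hp
      exact ⟨h5 0 (Nat.zero_le _), γ (A p), h4, hγ.1 _ (by omega)⟩
    · -- the arms
      have hinv : ∀ w, ∃ p, w ∈ PA.image (fun p => γ (A p + 1)) → p ∈ PA ∧ γ (A p + 1) = w :=
        fun w => by
        by_cases hw : w ∈ PA.image (fun p => γ (A p + 1))
        · obtain ⟨p, hp, rfl⟩ := mem_image.1 hw
          exact ⟨p, fun _ => ⟨hp, rfl⟩⟩
        · exact ⟨0, fun h => absurd h hw⟩
      choose I hI using hinv
      refine ⟨fun w i => γ (A (I w) + 1 + i), fun w hw => ?_, fun w hw w' hw' hne i hi j hj h => ?_⟩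
      · obtain ⟨h1, h2⟩ := hI w hw
        obtain ⟨_, _, h3, h4, h5⟩ := hA _ h1
        refine ⟨h2, saw_sub hγ _ _ (by omega), fun i hi => ?_⟩
        rw [mem_sdiff]
        exact ⟨mem_univ _, h5 i hi⟩
      · obtain ⟨h1, h2⟩ := hI w hw
        obtain ⟨h1', h2'⟩ := hI w' hw'
        have h3 := (hA _ h1).2.2.1
        have h3' := (hA _ h1').2.2.1
        have e := hinj _ _ (by omega) (by omega) h
        rcases lt_trichotomy (I w) (I w') with h4 | h4 | h4
        · have := hsep _ h1 _ h1' h4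
          omega
        · apply hne
          rw [← h2, ← h2', h4]
        · have := hsep _ h1' _ h1 h4
          omega
  have h1 := card_erase_of_mem htopP
  have h2 := card_le_card hcover
  have h3 := card_union_le PE PA
  omega

end RST.I
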