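import Pool.Agent.Lib.MP_7946c7_pr.DefsW

/-!
# Stream I, Lemma Z: a closed piece of a self-avoiding walk contains an edge of a closed chain
-/

open Finset

namespace RST.I

private lemma lz_mem_filter {α : Type*} {p : α → Prop} {inst : DecidablePred p} {s : Finset α}
    {a : α} : a ∈ @Finset.filter α p inst s ↔ a ∈ s ∧ p a := by
  simp

private lemma lz_mem_cmp {V : Type*} [Fintype V] {R : V → V → Prop} {v w : V} :
    w ∈ cmp R univ v ↔ Rch R univ v w := by
  simp [cmp]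

private lemma lz_symm {V : Type*} [Fintype V] {R : V → V → Prop} (hR : ∀ u v, R u v → R v u)
    {u v : V} (h : Rch R univ u v) : Rch R univ v u := by
  unfold Rch at *
  induction h with
  | refl => exact Relation.ReflTransGen.refl
  | tail _ h2 ih => exact Relation.ReflTransGen.head ⟨hR _ _ h2.1, h2.2.2, h2.2.1⟩ ih

private lemma lz_trans {V : Type*} [Fintype V] {R : V → V → Prop} {u v w : V}
    (h : Rch R univ u v) (h' : Rch R univ v w) : Rch R univ u w :=
  Relation.ReflTransGen.trans h h'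

private lemma lz_run {V : Type*} [Fintype V] {R : V → V → Prop} {γ : ℕ → V} {s e : ℕ}
    (hse : s ≤ e) (h : ∀ t, s ≤ t → t < e → R (γ t) (γ (t + 1))) :
    Rch R univ (γ s) (γ e) := by
  induction e, hse using Nat.le_induction with
  | base => exact Relation.ReflTransGen.refl
  | succ e he ih =>
    exact Relation.ReflTransGen.tail (ih fun t h1 h2 => h t h1 (by omega))
      ⟨h e he (by omega), by simp, by simp⟩

private lemma lz_cmp_eq {V : Type*} [Fintype V] {R : V → V → Prop} {u v : V}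
    (h : cmp R univ u = cmp R univ v) : Rch R univ u v := by
  have h2 : v ∈ cmp R univ v := lz_mem_cmp.2 Relation.ReflTransGen.refl
  rw [← h] at h2
  exact lz_mem_cmp.1 h2

/-- Enumeration of a nonempty finite set of times. -/
private lemma lz_enum (S : Finset ℕ) (l : ℕ) (hS : S.card = l + 1) :
    ∃ t : ℕ → ℕ, (∀ k ≤ l, t k ∈ S) ∧ (∀ k ≤ l, ∀ k' ≤ l, k < k' → t k < t k') ∧
      ∀ x ∈ S, ∃ k ≤ l, t k = x := by
  refine ⟨fun k => if h : k < l + 1 then S.orderEmbOfFin hS ⟨k, h⟩ else 0, ?_, ?_, ?_⟩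
  · intro k hk
    have : k < l + 1 := by omega
    simp only [this, dif_pos]
    exact Finset.orderEmbOfFin_mem S hS _
  · intro k hk k' hk' hkk
    have h1 : k < l + 1 := by omega
    have h2 : k' < l + 1 := by omega
    simp only [h1, h2, dif_pos]
    exact (S.orderEmbOfFin hS).strictMono (by simpa using hkk)
  · intro x hx
    have : x ∈ Set.range (S.orderEmbOfFin hS) := by
      rw [Finset.range_orderEmbOfFin]; exact hx
    obtain ⟨k, hk⟩ := this
    refine ⟨k, by omega, ?_⟩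
    simp only [k.2, dif_pos]
    exact hk

private lemma lz_edge_ne {V : Type*} {R : V → V → Prop} {γ : ℕ → V} {ℓ : ℕ} (hγ : IsSAW R γ ℓ)
    {s t : ℕ} (hs : s < ℓ) (ht : t < ℓ) (hst : s < t) : s(γ s, γ (s + 1)) ≠ s(γ t, γ (t + 1)) := by
  intro h
  rcases Sym2.eq_iff.1 h with ⟨h1, _⟩ | ⟨h1, _⟩
  · have := hγ.2 _ (by omega) _ (by omega) h1
    omega
  · have := hγ.2 _ (by omega) _ (by omega) h1
    omega

variable {V : Type} [Fintype V] [DecidableEq V]

open Classical in
private lemma lz_main (Gm GW : V → V → Prop) (hm : ∀ u v, Gm u v → Gm v u)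
    (lm : ℕ) (γ : ℕ → V) (ℓ : ℕ)
    (hγ : IsSAW GW γ ℓ) (i j : ℕ) (hij : i < j) (hj : j ≤ ℓ) (hc : Rch Gm univ (γ i) (γ j))
    (h1 : ∃ t, i ≤ t ∧ t < j ∧ ¬ Gm (γ t) (γ (t + 1)))
    (hmin : ∀ i' j', i ≤ i' → i' < j' → j' < j → Rch Gm univ (γ i') (γ j') →
      ∀ t, i' ≤ t → t < j' → Gm (γ t) (γ (t + 1)))
    (hcard : ((Ico i j).filter fun t => ¬ Gm (γ t) (γ (t + 1))).card ≤ lm + 1) :
    ∃ t, i ≤ t ∧ t < j ∧ ¬ Gm (γ t) (γ (t + 1)) ∧ s(γ t, γ (t + 1)) ∈ Ecyc Gm GW lm := by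
  obtain ⟨S, hS⟩ : ∃ S : Finset ℕ, S = (Ico i j).filter fun t => ¬ Gm (γ t) (γ (t + 1)) := ⟨_, rfl⟩
  have hmem : ∀ t, t ∈ S ↔ (i ≤ t ∧ t < j) ∧ ¬ Gm (γ t) (γ (t + 1)) := by
    intro t
    rw [hS, lz_mem_filter, Finset.mem_Ico]
  rw [← hS] at hcard
  obtain ⟨t₀, ht₀, ht₀', ht₀''⟩ := h1
  have hpos : 0 < S.card := Finset.card_pos.2 ⟨t₀, (hmem _).2 ⟨⟨ht₀, ht₀'⟩, ht₀''⟩⟩
  obtain ⟨l, hl⟩ : ∃ l, S.card = l + 1 := ⟨S.card - 1, by omega⟩
  obtain ⟨t, htS, htm, hts⟩ := lz_enum S l hl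
  have hti : ∀ k ≤ l, i ≤ t k := fun k hk => ((hmem _).1 (htS k hk)).1.1
  have htj : ∀ k ≤ l, t k < j := fun k hk => ((hmem _).1 (htS k hk)).1.2
  have htG : ∀ k ≤ l, ¬ Gm (γ (t k)) (γ (t k + 1)) := fun k hk => ((hmem _).1 (htS k hk)).2
  have htle : ∀ k ≤ l, ∀ k' ≤ l, k ≤ k' → t k ≤ t k' := by
    intro k hk k' hk' hkk
    rcases Nat.lt_or_eq_of_le hkk with h | h
    · exact (htm k hk k' hk' h).le
    · rw [h]
  -- between two consecutive times all the steps are in `Gm`
  have hbetween : ∀ k < l, ∀ s, t k + 1 ≤ s → s < t (k + 1) → Gm (γ s) (γ (s + 1)) := by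
    intro k hk s hs1 hs2
    by_contra hcon
    have := htj (k + 1) (by omega)
    have := hti k (by omega)
    obtain ⟨k', hk', hk''⟩ := hts s ((hmem _).2 ⟨⟨by omega, by omega⟩, hcon⟩)
    rcases Nat.lt_or_ge k k' with h | h
    · have := htle (k + 1) (by omega) k' hk' h
      omega
    · have := htle k' hk' k (by omega) h
      omega
  have hbefore : ∀ s, i ≤ s → s < t 0 → Gm (γ s) (γ (s + 1)) := by
    intro s hs1 hs2
    by_contra hcon
    have := htj 0 (by omega)
    obtain ⟨k', hk', hk''⟩ := hts s ((hmem _).2 ⟨⟨by omega, by omega⟩, hcon⟩)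
    have := htle 0 (by omega) k' hk' (by omega)
    omega
  have hafter : ∀ s, t l + 1 ≤ s → s < j → Gm (γ s) (γ (s + 1)) := by
    intro s hs1 hs2
    by_contra hcon
    have := hti l (by omega)
    obtain ⟨k', hk', hk''⟩ := hts s ((hmem _).2 ⟨⟨by omega, by omega⟩, hcon⟩)
    have := htle k' hk' l (by omega) hk'
    omega
  have hnx : ∀ k ≤ l, (if nx l k = 0 then γ (t l + 1) else γ (t (nx l k - 1) + 1)) =
      γ (t k + 1) := by
    intro k hk
    unfold nx
    by_cases h : k = l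
    · simp [h]
    · simp [h]
  have hchain : IsClosedChain Gm GW l (fun k => γ (t k))
      (fun k => if k = 0 then γ (t l + 1) else γ (t (k - 1) + 1)) := by
    refine ⟨?_, ?_, ?_, ?_⟩
    · intro k hk
      rw [lz_mem_cmp]
      rcases Nat.eq_zero_or_pos k with h0 | h0
      · subst h0
        simp only [if_true]
        have e1 : Rch Gm univ (γ i) (γ (t 0)) := lz_run (hti 0 hk) hbefore
        have e2 : Rch Gm univ (γ (t l + 1)) (γ j) := lz_run (by have := htj l le_rfl; omega) hafter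
        exact lz_trans (lz_symm hm e1) (lz_trans hc (lz_symm hm e2))
      · have hne : k ≠ 0 := by omega
        simp only [hne, if_false]
        have e1 : Rch Gm univ (γ (t (k - 1) + 1)) (γ (t k)) := by
          refine lz_run (htm (k - 1) (by omega) k hk (by omega)) ?_
          intro s hs1 hs2
          refine hbetween (k - 1) (by omega) s hs1 ?_
          have : k - 1 + 1 = k := by omega
          rw [this]; exact hs2
        exact lz_symm hm e1
    · have key : ∀ k ≤ l, ∀ k' ≤ l, k < k' →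
          cmp Gm univ (γ (t k)) ≠ cmp Gm univ (γ (t k')) := by
        intro k hk k' hk' hkk heq
        have h2 := hmin (t k) (t k') (hti k hk) (htm k hk k' hk' hkk) (htj k' hk') (lz_cmp_eq heq)
          (t k) le_rfl (htm k hk k' hk' hkk)
        exact htG k hk h2
      intro k hk k' hk' hne
      rcases Nat.lt_or_gt_of_ne hne with h | h
      · exact key k hk k' hk' h
      · exact fun h' => key k' hk' k hk h h'.symm
    · intro k hk
      show GW (γ (t k)) (if nx l k = 0 then γ (t l + 1) else γ (t (nx l k - 1) + 1)) ∧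
        ¬ Gm (γ (t k)) (if nx l k = 0 then γ (t l + 1) else γ (t (nx l k - 1) + 1))
      rw [hnx k hk]
      have := htj k hk
      exact ⟨hγ.1 _ (by omega), htG k hk⟩
    · intro k hk k' hk' hne
      show s(γ (t k), if nx l k = 0 then γ (t l + 1) else γ (t (nx l k - 1) + 1)) ≠
        s(γ (t k'), if nx l k' = 0 then γ (t l + 1) else γ (t (nx l k' - 1) + 1))
      rw [hnx k hk, hnx k' hk']
      have hk1 := htj k hk
      have hk2 := htj k' hk'
      rcases Nat.lt_or_gt_of_ne hne with h | h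
      · exact lz_edge_ne hγ (by omega) (by omega) (htm k hk k' hk' h)
      · exact (lz_edge_ne hγ (by omega) (by omega) (htm k' hk' k hk h)).symm
  refine ⟨t 0, hti 0 (by omega), htj 0 (by omega), htG 0 (by omega), ?_⟩
  unfold Ecyc
  rw [lz_mem_filter]
  refine ⟨by simp, l, by omega, _, _, hchain, 0, by omega, ?_⟩
  show s(γ (t 0), γ (t 0 + 1)) =
    s(γ (t 0), if nx l 0 = 0 then γ (t l + 1) else γ (t (nx l 0 - 1) + 1))
  rw [hnx 0 (Nat.zero_le _)]

open Classical in
/-- LEMMA Z. A piece of a self-avoiding walk of `GW` with both ends in the same component of `Gm`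
and between `1` and `lm + 1` window edges contains an edge of `Ecyc`. -/
theorem lemmaZ (Gm GW : V → V → Prop) (hm : ∀ u v, Gm u v → Gm v u)
    (hL : ∀ u v, GW u v → GW v u) (hmL : ∀ u v, Gm u v → GW u v) (lm : ℕ) (γ : ℕ → V) (ℓ : ℕ)
    (hγ : IsSAW GW γ ℓ) (i j : ℕ) (hij : i < j) (hj : j ≤ ℓ) (hc : γ j ∈ cmp Gm univ (γ i))
    (h1 : ∃ t, i ≤ t ∧ t < j ∧ ¬ Gm (γ t) (γ (t + 1)))
    (hcard : ((Ico i j).filter fun t => ¬ Gm (γ t) (γ (t + 1))).card ≤ lm + 1) :
    ∃ t, i ≤ t ∧ t < j ∧ ¬ Gm (γ t) (γ (t + 1)) ∧ s(γ t, γ (t + 1)) ∈ Ecyc Gm GW lm := by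
  obtain ⟨d, hd⟩ : ∃ d, j - i = d := ⟨_, rfl⟩
  induction d using Nat.strong_induction_on generalizing i j with
  | _ d ih =>
    by_cases hmin : ∀ i' j', i ≤ i' → i' < j' → j' < j → Rch Gm univ (γ i') (γ j') →
      ∀ t, i' ≤ t → t < j' → Gm (γ t) (γ (t + 1))
    · exact lz_main Gm GW hm lm γ ℓ hγ i j hij hj (lz_mem_cmp.1 hc) h1 hmin hcard
    · push Not at hmin
      obtain ⟨i', j', hi', hij', hj', hR, t, ht1, ht2, ht3⟩ := hmin
      have hsub : ((Ico i' j').filter fun t => ¬ Gm (γ t) (γ (t + 1))).card ≤ lm + 1 := by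
        refine le_trans (Finset.card_le_card ?_) hcard
        intro x hx
        rw [lz_mem_filter, Finset.mem_Ico] at hx ⊢
        exact ⟨⟨by omega, by omega⟩, hx.2⟩
      obtain ⟨t', h1', h2', h3', h4'⟩ := ih (j' - i') (by omega) i' j' hij' (by omega)
        (lz_mem_cmp.2 hR) ⟨t, ht1, ht2, ht3⟩ hsub rfl
      exact ⟨t', by omega, by omega, h3', h4'⟩

end RST.I
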