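import Pool.Agent.Lib.MP_7946c7_pr.I.LemmaZ
import Pool.Agent.Lib.MP_7946c7_pr.I.Walk

/-!
# Structure of a path between two representatives, (L)
-/

open Finset

set_option linter.unusedSectionVars false

namespace RST.I

/-- Enumeration of a finite set of positions from its minimum to its maximum. -/
theorem chain_enum (Rel : ℕ → ℕ → Prop) : ∀ (n : ℕ) (P : Finset ℕ) (a b : ℕ), P.card = n + 1 →
    a ∈ P → b ∈ P → (∀ x ∈ P, a ≤ x) → (∀ x ∈ P, x ≤ b) →
    (∀ x ∈ P, ∀ y ∈ P, x < y → (∀ z ∈ P, ¬ (x < z ∧ z < y)) → Rel x y) →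
    ∃ (q : ℕ) (g : ℕ → ℕ), g 0 = a ∧ g q = b ∧ (∀ j ≤ q, g j ∈ P) ∧ q ≤ n ∧
      ∀ j < q, Rel (g j) (g (j + 1)) := by
  intro n
  induction n with
  | zero =>
    intro P a b hP ha hb _ _ _
    obtain ⟨c, rfl⟩ := card_eq_one.1 hP
    rw [mem_singleton] at ha hb
    subst ha
    subst hb
    exact ⟨0, fun _ => b, rfl, rfl, fun j _ => by simp, le_rfl, fun j hj => by omega⟩
  | succ n ih =>
    intro P a b hP ha hb hmin hmax h
    have hP' : (P.erase b).card = n + 1 := by rw [card_erase_of_mem hb]; omega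
    have hne : (P.erase b).Nonempty := card_pos.1 (by omega)
    obtain ⟨b', hb', hb'max⟩ := exists_max_image (P.erase b) id hne
    have hab : a ≠ b := by
      rintro rfl
      have h1 := hmax b' (mem_of_mem_erase hb')
      have h2 := hmin b' (mem_of_mem_erase hb')
      exact (ne_of_mem_erase hb') (by omega)
    have ha' : a ∈ P.erase b := mem_erase.2 ⟨hab, ha⟩
    obtain ⟨q, g, h0, hq, hg, hqn, hR⟩ := ih (P.erase b) a b' hP' ha' hb'
      (fun x hx => hmin x (mem_of_mem_erase hx)) (fun x hx => hb'max x hx)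
      (fun x hx y hy hxy hz => h x (mem_of_mem_erase hx) y (mem_of_mem_erase hy) hxy
        fun z hzP hz' => by
          have hzb : z ≠ b := by
            rintro rfl
            have := hmax y (mem_of_mem_erase hy)
            omega
          exact hz z (mem_erase.2 ⟨hzb, hzP⟩) hz')
    have hb'b : b' < b := lt_of_le_of_ne (hmax b' (mem_of_mem_erase hb')) (ne_of_mem_erase hb')
    refine ⟨q + 1, fun j => if j ≤ q then g j else b, ?_, ?_, ?_, by omega, ?_⟩
    · simp [h0]
    · have : ¬ q + 1 ≤ q := by omega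
      simp
    · intro j hj
      by_cases hjq : j ≤ q
      · simp only [if_pos hjq]
        exact mem_of_mem_erase (hg j hjq)
      · simp only [if_neg hjq]
        exact hb
    · intro j hj
      by_cases hjq : j = q
      · subst hjq
        have h1 : j ≤ j := le_rfl
        have h2 : ¬ j + 1 ≤ j := by omega
        simp only [if_pos h1, if_neg h2, hq]
        refine h b' (mem_of_mem_erase hb') b hb hb'b fun z hz hz' => ?_
        have := hb'max z (mem_erase.2 ⟨by omega, hz⟩)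
        simp only [id] at this
        omega
      · have h1 : j ≤ q := by omega
        have h2 : j + 1 ≤ q := by omega
        simp only [if_pos h1, if_pos h2]
        exact hR j (by omega)

variable {V : Type} [Fintype V]

/-- Number of window edges of a walk of length `n`. -/
theorem window_count (bad : ℕ → Prop) [DecidablePred bad] (k₀ r' : ℕ) (hr' : 1 ≤ r') (ℓ : ℕ)
    (h : ∀ i n, i + n ≤ ℓ → n ≤ r' → ((Ico i (i + n)).filter bad).card ≤ k₀) (n : ℕ)
    (hn : n ≤ ℓ) : ((Ico 0 n).filter bad).card ≤ k₀ * (n / r' + 1) := by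
  induction n using Nat.strong_induction_on with
  | _ n ih =>
    rcases Nat.lt_or_ge n r' with h1 | h1
    · have := h 0 n (by omega) (by omega)
      rw [Nat.zero_add] at this
      rw [Nat.div_eq_of_lt h1]
      omega
    · have h2 := ih (n - r') (by omega) (by omega)
      have h3 := h (n - r') r' (by omega) le_rfl
      have e : n - r' + r' = n := by omega
      rw [e] at h3
      have e2 : (Ico 0 n).filter bad = (Ico 0 (n - r')).filter bad ∪
          (Ico (n - r') n).filter bad := by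
        ext x
        simp only [mem_filter, mem_Ico, mem_union]
        constructor
        · rintro ⟨⟨h1, h2⟩, h3⟩
          by_cases hx : x < n - r'
          · exact Or.inl ⟨⟨h1, hx⟩, h3⟩
          · exact Or.inr ⟨⟨by omega, h2⟩, h3⟩
        · rintro (⟨⟨h1, h2⟩, h3⟩ | ⟨⟨h1, h2⟩, h3⟩)
          · exact ⟨⟨by omega, by omega⟩, h3⟩
          · exact ⟨⟨by omega, by omega⟩, h3⟩
      have e3 : n / r' = (n - r') / r' + 1 := by
        rw [Nat.div_eq_sub_div (by omega) h1]
      rw [e2, e3]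
      calc _ ≤ _ := card_union_le _ _
        _ ≤ k₀ * ((n - r') / r' + 1) + k₀ := by omega
        _ = _ := by ring

/-- A walk of length at most `r'` has at most `k₀` window edges. -/
theorem d3_Ico {Gm GW : V → V → Prop} {k₀ r' : ℕ}
    (d3 : ∀ (γ : ℕ → V) (ℓ : ℕ), IsSAW GW γ ℓ → ℓ ≤ r' →
      (open Classical in ((range ℓ).filter fun i => ¬ Gm (γ i) (γ (i + 1))).card ≤ k₀))
    {γ : ℕ → V} {ℓ : ℕ} (hγ : IsSAW GW γ ℓ) (i n : ℕ) (hi : i + n ≤ ℓ) (hn : n ≤ r') :
    (open Classical in ((Ico i (i + n)).filter fun t => ¬ Gm (γ t) (γ (t + 1))).card) ≤ k₀ := by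
  classical
  refine le_trans ?_ (d3 (fun k => γ (i + k)) n (saw_sub hγ i n hi) hn)
  refine card_le_card_of_injOn (fun t => t - i) ?_ ?_
  · intro t ht
    simp only [coe_filter, mem_Ico, Set.mem_ofPred_eq, mem_range] at ht ⊢
    refine ⟨by omega, ?_⟩
    have e1 : i + (t - i) = t := by omega
    have e2 : i + (t - i + 1) = t + 1 := by omega
    rw [e1, e2]
    exact ht.2
  · intro t ht t' ht' h
    simp only [coe_filter, mem_Ico, Set.mem_ofPred_eq] at ht ht' h
    omega

/-- LOWER, (L): structure of a path between two representatives. -/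
theorem lower_struct (Gm GA GW : V → V → Prop) (km lmax r' r'' k₀ lm ab eb : ℕ)
    (F : DFacts Gm GA GW km lmax r' r'' k₀ lm ab eb) (hr : r'' = r' / 2) (hr' : 2 ≤ r')
    (hlm : 2 * k₀ + 4 ≤ lm) (rep : Finset V → V) (hrep : ∀ Q ∈ bigs Gm univ km, rep Q ∈ Q)
    (γ : ℕ → V) (ℓ : ℕ) (hγ : IsSAW GW γ ℓ) (Q Q' : Finset V) (hQ : Q ∈ bigs Gm univ km)
    (hQ' : Q' ∈ bigs Gm univ km) (hne : Q ≠ Q') (h0 : γ 0 = rep Q) (hl : γ ℓ = rep Q')
    (hE : ∀ i < ℓ, s(γ i, γ (i + 1)) ∉ Ecyc Gm GW lm) :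
    ∃ (q : ℕ) (g : ℕ → ℕ), (∀ j ≤ q, g j < ℓ) ∧ q + 1 ≤ k₀ * (ℓ / r' + 1) ∧
      (γ 0, s(γ (g 0), γ (g 0 + 1))) ∈ QQb Gm GW km r'' rep ∧
      (γ ℓ, s(γ (g q), γ (g q + 1))) ∈ QQb Gm GW km r'' rep ∧
      ∀ j < q, (s(γ (g j), γ (g j + 1)), s(γ (g (j + 1)), γ (g (j + 1) + 1))) ∈ PPa Gm GW r'' := by
  classical
  have hmL : ∀ u v, Gm u v → GW u v := fun u v h => F.le_L u v (F.le_A u v h)
  have sQ : ∀ v, v ∈ Q → cmp Gm univ v = Q := fun v hv => bigs_eq F.symm_m hQ hv
  have sQ' : ∀ v, v ∈ Q' → cmp Gm univ v = Q' := fun v hv => bigs_eq F.symm_m hQ' hv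
  have hdisj : ∀ v, v ∈ Q → v ∉ Q' := fun v hv hv' => hne ((sQ v hv).symm.trans (sQ' v hv'))
  -- the last visit `s` of `Q`
  have hγ0 : γ 0 ∈ Q := h0 ▸ hrep Q hQ
  have hγl : γ ℓ ∈ Q' := hl ▸ hrep Q' hQ'
  obtain ⟨s, hsmem, hsmax⟩ := exists_max_image ((range (ℓ + 1)).filter fun i => γ i ∈ Q) id
    ⟨0, by simp [hγ0]⟩
  simp only [mem_filter, mem_range, id] at hsmem hsmax
  have hsl : s ≤ ℓ := by omega
  have hsQ := hsmem.2
  have hafter : ∀ i, s < i → i ≤ ℓ → γ i ∉ Q := fun i h1 h2 h3 => by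
    have := hsmax i ⟨by omega, h3⟩
    omega
  -- the first visit `t` of `Q'` after `s`
  have hex : ∃ t, s < t ∧ t ≤ ℓ ∧ γ t ∈ Q' := by
    refine ⟨ℓ, ?_, le_rfl, hγl⟩
    rcases Nat.lt_or_ge s ℓ with h | h
    · exact h
    · have : s = ℓ := by omega
      subst this
      exact absurd hγl (hdisj _ hsQ)
  obtain ⟨hst, htl, htQ⟩ := Nat.find_spec hex
  have hbefore : ∀ i, s < i → i < Nat.find hex → γ i ∉ Q' := fun i h1 h2 h3 =>
    Nat.find_min hex h2 ⟨h1, by omega, h3⟩
  generalize Nat.find hex = t at hst htl htQ hbefore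
  -- arms inside the two components
  obtain ⟨α, hα0, hα, -⟩ := F.d10 (γ s) (by rw [sQ _ hsQ]; exact bigs_card hQ)
  obtain ⟨α', hα'0, hα', -⟩ := F.d10 (γ t) (by rw [sQ' _ htQ]; exact bigs_card hQ')
  have hαQ : ∀ i ≤ r'', α i ∈ Q := fun i hi => by
    have := saw_mem_cmp hα i hi
    rw [hα0, sQ _ hsQ] at this
    exact this
  have hα'Q : ∀ i ≤ r'', α' i ∈ Q' := fun i hi => by
    have := saw_mem_cmp hα' i hi
    rw [hα'0, sQ' _ htQ] at this
    exact this
  have hαW : IsSAW GW α r'' := ⟨fun i hi => hmL _ _ (hα.1 i hi), hα.2⟩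
  have hα'W : IsSAW GW α' r'' := ⟨fun i hi => hmL _ _ (hα'.1 i hi), hα'.2⟩
  -- the extended walk
  obtain ⟨n, rfl⟩ : ∃ n, t = s + n := ⟨t - s, by omega⟩
  set A : ℕ → V := fun i => α (r'' - i) with hA
  set B : ℕ → V := fun i => γ (s + i) with hB
  have hA1 : IsSAW GW A r'' := saw_rev F.symm_L hαW r'' r'' le_rfl le_rfl
  have hB1 : IsSAW GW B n := saw_sub hγ s n htl
  have hAB : A r'' = B 0 := by simp [hA, hB, hα0]
  have hAB1 : IsSAW GW (cat A r'' B) (r'' + n) := by
    refine saw_cat hA1 hB1 hAB fun i hi j hj h => ?_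
    have h1 : A i ∈ Q := hαQ _ (by omega)
    rcases Nat.eq_zero_or_pos j with rfl | hj0
    · rw [← hAB] at h
      have := hA1.2 i (by omega) r'' le_rfl h
      omega
    · rw [h] at h1
      exact hafter (s + j) (by omega) (by omega) h1
  have hABn : cat A r'' B (r'' + n) = α' 0 := by
    rw [cat_ge A r'' B hAB _ (by omega)]
    simp [hB, hα'0]
  set Γ : ℕ → V := cat (cat A r'' B) (r'' + n) α' with hΓdef
  have hΓ : IsSAW GW Γ (r'' + n + r'') := by
    refine saw_cat hAB1 hα'W hABn fun i hi j hj h => ?_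
    have h1 : α' j ∈ Q' := hα'Q j hj
    rw [← h] at h1
    rcases Nat.lt_or_ge i r'' with h2 | h2
    · rw [cat_le A r'' B i (by omega)] at h1
      exact hdisj _ (hαQ (r'' - i) (by omega)) h1
    · rw [cat_ge A r'' B hAB i h2] at h1
      rcases Nat.lt_or_ge r'' i with h3 | h3
      · exact hbefore (s + (i - r'')) (by omega) (by omega) h1
      · have : i = r'' := by omega
        subst this
        simp only [hB, Nat.sub_self, Nat.add_zero] at h1
        exact hdisj _ hsQ h1
  have Γmid : ∀ i ≤ n, Γ (r'' + i) = γ (s + i) := fun i hi => by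
    rw [hΓdef, cat_le _ _ _ _ (by omega), cat_ge A r'' B hAB _ (by omega)]
    simp [hB]
  have Γlow : ∀ i < r'', Γ i = α (r'' - i) := fun i hi => by
    rw [hΓdef, cat_le _ _ _ _ (by omega), cat_le A r'' B i (by omega)]
  have Γhigh : ∀ i ≤ r'', Γ (r'' + n + i) = α' i := fun i hi => by
    rw [hΓdef, cat_ge _ _ _ hABn _ (by omega)]
    simp
  have ΓQ : ∀ i ≤ r'', Γ i ∈ Q := fun i hi => by
    rcases Nat.lt_or_ge i r'' with h1 | h1
    · rw [Γlow i h1]
      exact hαQ _ (by omega)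
    · have : i = r'' + 0 := by omega
      rw [this, Γmid 0 (by omega)]
      exact hsQ
  have ΓnQ : ∀ i, r'' < i → i ≤ r'' + n + r'' → Γ i ∉ Q := fun i h1 h2 h3 => by
    rcases Nat.lt_or_ge (r'' + n) i with h4 | h4
    · have e : i = r'' + n + (i - (r'' + n)) := by omega
      rw [e, Γhigh _ (by omega)] at h3
      exact hdisj _ h3 (hα'Q _ (by omega))
    · have e : i = r'' + (i - r'') := by omega
      rw [e, Γmid _ (by omega)] at h3
      exact hafter _ (by omega) (by omega) h3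
  have ΓnQ' : ∀ i, i < r'' + n → Γ i ∉ Q' := fun i h1 h3 => by
    rcases Nat.lt_or_ge r'' i with h4 | h4
    · have e : i = r'' + (i - r'') := by omega
      rw [e, Γmid _ (by omega)] at h3
      exact hbefore _ (by omega) (by omega) h3
    · exact hdisj _ (ΓQ i h4) h3
  -- window edges of `Γ` are edges of `γ`
  have Γwin : ∀ i, i < r'' + n + r'' → ¬ Gm (Γ i) (Γ (i + 1)) →
      r'' ≤ i ∧ i < r'' + n := fun i hi hw => by
    by_contra hcon
    apply hw
    rcases Nat.lt_or_ge i r'' with h1 | h1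
    · rw [Γlow i h1]
      rcases Nat.lt_or_ge (i + 1) r'' with h2 | h2
      · rw [Γlow (i + 1) h2]
        have := hα.1 (r'' - (i + 1)) (by omega)
        have e : r'' - (i + 1) + 1 = r'' - i := by omega
        rw [e] at this
        exact F.symm_m _ _ this
      · have e : i + 1 = r'' + 0 := by omega
        rw [e, Γmid 0 (by omega), Nat.add_zero, ← hα0]
        have := hα.1 0 (by omega)
        have e2 : r'' - i = 0 + 1 := by omega
        rw [e2]
        exact F.symm_m _ _ this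
    · obtain ⟨k, rfl⟩ : ∃ k, i = r'' + n + k := ⟨i - (r'' + n), by omega⟩
      rw [Γhigh k (by omega), show r'' + n + k + 1 = r'' + n + (k + 1) by omega,
        Γhigh (k + 1) (by omega)]
      exact hα'.1 k (by omega)
  -- no closed piece
  have hcount : ∀ i m, i + m ≤ r'' + n + r'' → m ≤ r' →
      ((Ico i (i + m)).filter fun t => ¬ Gm (Γ t) (Γ (t + 1))).card ≤ k₀ := fun i m h1 h2 =>
    d3_Ico F.d3 hΓ i m h1 h2
  have noclosed : ∀ i m, i + m ≤ r'' + n + r'' → m ≤ r' → Γ (i + m) ∈ cmp Gm univ (Γ i) →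
      (∃ t, i ≤ t ∧ t < i + m ∧ ¬ Gm (Γ t) (Γ (t + 1))) → False := fun i m h1 h2 h3 h4 => by
    have hm0 : 0 < m := by
      obtain ⟨t, ht1, ht2, _⟩ := h4
      omega
    obtain ⟨t, ht1, ht2, ht3, ht4⟩ := lemmaZ Gm GW F.symm_m F.symm_L hmL lm Γ _ hΓ i (i + m)
      (by omega) h1 h3 h4 (by have := hcount i m h1 h2; omega)
    obtain ⟨h5, h6⟩ := Γwin t (by omega) ht3
    have e : t = r'' + (t - r'') := by omega
    have e2 : t + 1 = r'' + (t - r'' + 1) := by omega
    rw [e2, Γmid _ (by omega)] at ht4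
    rw [e, Γmid _ (by omega)] at ht4
    exact hE (s + (t - r'')) (by omega) (by simpa [Nat.add_assoc] using ht4)
  -- positions of the window edges of the middle part
  set P : Finset ℕ := (Ico 0 n).filter fun i => ¬ Gm (γ (s + i)) (γ (s + i + 1)) with hPdef
  have hPmem : ∀ i, i ∈ P ↔ i < n ∧ ¬ Gm (γ (s + i)) (γ (s + i + 1)) := fun i => by
    simp [hPdef]
  have h0P : 0 ∈ P := by
    rw [hPmem]
    refine ⟨by omega, fun h => ?_⟩
    have h1 : γ (s + 0 + 1) ∈ cmp Gm univ (γ s) := mem_cmp.2 (rch_edge h)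
    rw [sQ _ hsQ] at h1
    exact hafter (s + 0 + 1) (by omega) (by omega) h1
  have hnP : n - 1 ∈ P := by
    rw [hPmem]
    refine ⟨by omega, fun h => ?_⟩
    have e : s + (n - 1) + 1 = s + n := by omega
    rw [e] at h
    have h1 : γ (s + (n - 1)) ∈ cmp Gm univ (γ (s + n)) :=
      mem_cmp.2 (rch_edge (F.symm_m _ _ h))
    rw [sQ' _ htQ] at h1
    rcases Nat.eq_zero_or_pos (n - 1) with h2 | h2
    · rw [h2] at h1
      exact hdisj _ hsQ h1
    · exact hbefore _ (by omega) (by omega) h1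
  have hPcard : P.card ≤ k₀ * (ℓ / r' + 1) := by
    have h1 := window_count (fun i => ¬ Gm (B i) (B (i + 1))) k₀ r' (by omega) n
      (fun i m h1 h2 => d3_Ico F.d3 hB1 i m h1 h2) n le_rfl
    refine le_trans (le_of_eq ?_) (le_trans h1 ?_)
    · rfl
    · apply Nat.mul_le_mul_left
      have := Nat.div_le_div_right (c := r') (show n ≤ ℓ by omega)
      omega
  obtain ⟨m, hm⟩ : ∃ m, P.card = m + 1 := ⟨P.card - 1, by
    have := card_pos.2 ⟨0, h0P⟩
    omega⟩
  -- consecutive edges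
  have hcons : ∀ x ∈ P, ∀ y ∈ P, x < y → (∀ z ∈ P, ¬ (x < z ∧ z < y)) →
      (s(γ (s + x), γ (s + x + 1)), s(γ (s + y), γ (s + y + 1))) ∈ PPa Gm GW r'' := by
    intro x hx y hy hxy hz
    obtain ⟨hxn, hxw⟩ := (hPmem x).1 hx
    obtain ⟨hyn, hyw⟩ := (hPmem y).1 hy
    have ex : s + x + 1 = s + (x + 1) := by omega
    have ey : s + y + 1 = s + (y + 1) := by omega
    have hcomp : γ (s + y) ∈ cmp Gm univ (γ (s + x + 1)) := by
      refine mem_cmp.2 (rch_walk γ (s + x + 1) (s + y) (by omega) fun k h1 h2 => ?_)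
      by_contra hk
      refine hz (k - s) ((hPmem _).2 ⟨by omega, ?_⟩) ⟨by omega, by omega⟩
      have e : s + (k - s) = k := by omega
      rw [e]
      exact hk
    have gx : Γ (r'' + x) = γ (s + x) := Γmid x (by omega)
    have gx1 : Γ (r'' + x + 1) = γ (s + x + 1) := by
      rw [ex]; exact Γmid (x + 1) (by omega)
    have gy : Γ (r'' + y) = γ (s + y) := Γmid y (by omega)
    have gy1 : Γ (r'' + y + 1) = γ (s + y + 1) := by
      rw [ey]; exact Γmid (y + 1) (by omega)
    have hr1 : r'' + 1 ≤ r' := by omega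
    -- the backward arm avoids the component
    have hback : ∀ i ≤ r'', Γ (r'' + x - i) ∉ cmp Gm univ (γ (s + x + 1)) := fun i hi hmem => by
      refine noclosed (r'' + x - i) (i + 1) (by omega) (by omega) ?_
        ⟨r'' + x, by omega, by omega, by rw [gx, gx1]; exact hxw⟩
      have e : r'' + x - i + (i + 1) = r'' + x + 1 := by omega
      rw [e, gx1]
      exact mem_cmp_symm F.symm_m hmem
    have hfwd : ∀ i ≤ r'', Γ (r'' + y + 1 + i) ∉ cmp Gm univ (γ (s + x + 1)) :=
      fun i hi hmem => by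
      refine noclosed (r'' + y) (i + 1) (by omega) (by omega) ?_
        ⟨r'' + y, by omega, by omega, by rw [gy, gy1]; exact hyw⟩
      have e : r'' + y + (i + 1) = r'' + y + 1 + i := by omega
      rw [e, gy, cmp_eq F.symm_m hcomp]
      exact hmem
    have hneq : γ (s + x) ≠ γ (s + y + 1) := fun h => by
      have := hγ.2 (s + x) (by omega) (s + y + 1) (by omega) h
      omega
    rw [PPa, mem_filter]
    refine ⟨mem_univ _, γ (s + x + 1), γ (s + x), γ (s + y), γ (s + y + 1), ?_, hcomp, ?_, ?_,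
      ?_, ?_, hneq, ?_⟩
    · rw [Sym2.eq_swap]
    · exact F.symm_L _ _ (hγ.1 (s + x) (by omega))
    · exact hγ.1 (s + y) (by omega)
    · have := hback 0 (by omega)
      rwa [Nat.sub_zero, gx] at this
    · have := hfwd 0 (by omega)
      rwa [Nat.add_zero, gy1] at this
    · refine disjArms_pair (α := fun i => Γ (r'' + x - i)) (β := fun i => Γ (r'' + y + 1 + i))
        hneq ?_ (saw_rev F.symm_L hΓ _ _ (by omega) (by omega)) (fun i hi => ?_) ?_
        (saw_sub hΓ _ _ (by omega)) (fun i hi => ?_) fun i hi j hj h => ?_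
      · show Γ (r'' + x - 0) = _
        rw [Nat.sub_zero]
        exact gx
      · rw [mem_sdiff]
        exact ⟨mem_univ _, hback i hi⟩
      · exact gy1
      · rw [mem_sdiff]
        exact ⟨mem_univ _, hfwd i hi⟩
      · have := hΓ.2 (r'' + x - i) (by omega) (r'' + y + 1 + j) (by omega) h
        omega
  obtain ⟨q, g, hg0, hgq, hgP, hqm, hR⟩ := chain_enum
    (fun x y => (s(γ (s + x), γ (s + x + 1)), s(γ (s + y), γ (s + y + 1))) ∈ PPa Gm GW r'')
    m P 0 (n - 1) hm h0P hnP (fun x _ => Nat.zero_le x)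
    (fun x hx => by have := (hPmem x).1 hx; omega) hcons
  refine ⟨q, fun j => s + g j, fun j hj => ?_, by omega, ?_, ?_, fun j hj => hR j hj⟩
  · show s + g j < ℓ
    have := ((hPmem _).1 (hgP j hj)).1
    omega
  · -- first edge
    simp only [hg0, Nat.add_zero]
    rw [QQb, mem_filter]
    refine ⟨mem_univ _, γ s, γ (s + 1), ?_, ?_, ?_, ?_, ?_⟩
    · rw [sQ _ hsQ, h0]
    · rw [sQ _ hsQ]
      exact bigs_card hQ
    · exact hγ.1 s (by omega)
    · rw [sQ _ hsQ]
      exact hafter _ (by omega) (by omega)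
    · rw [sQ _ hsQ]
      refine ⟨fun i => Γ (r'' + 1 + i), ?_, saw_sub hΓ _ _ (by omega), fun i hi => ?_⟩
      · show Γ (r'' + 1 + 0) = _
        exact Γmid 1 (by omega)
      · rw [mem_sdiff]
        exact ⟨mem_univ _, ΓnQ _ (by omega) (by omega)⟩
  · -- last edge
    simp only [hgq]
    have e : s + (n - 1) + 1 = s + n := by omega
    rw [e, QQb, mem_filter]
    refine ⟨mem_univ _, γ (s + n), γ (s + (n - 1)), ?_, ?_, ?_, ?_, ?_⟩
    · rw [sQ' _ htQ, hl, Sym2.eq_swap]
    · rw [sQ' _ htQ]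
      exact bigs_card hQ'
    · have := hγ.1 (s + (n - 1)) (by omega)
      rw [e] at this
      exact F.symm_L _ _ this
    · rw [sQ' _ htQ]
      rcases Nat.eq_zero_or_pos (n - 1) with h2 | h2
      · rw [h2]
        exact hdisj _ hsQ
      · exact hbefore _ (by omega) (by omega)
    · rw [sQ' _ htQ]
      refine ⟨fun i => Γ (r'' + (n - 1) - i), ?_,
        saw_rev F.symm_L hΓ _ _ (by omega) (by omega), fun i hi => ?_⟩
      · show Γ (r'' + (n - 1) - 0) = _
        rw [Nat.sub_zero]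
        exact Γmid (n - 1) (by omega)
      · rw [mem_sdiff]
        exact ⟨mem_univ _, ΓnQ' _ (by omega)⟩

end RST.I
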